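import Pool.Agent.Helper26_Pak.PA3

/-!
# Paths which are graphs of functions
-/

namespace Pool.Agent.Helper2_Pak.H26

open Pool.Agent.Helper2_Pack (Polygon pt Crosses region IsSimple chainVal)

/-- the function `f` is affine between `x₀` and `x₁`, with the values `y₀`, `y₁` at the ends -/
def Aff (f : ℝ → ℝ) (x₀ y₀ x₁ y₁ : ℝ) : Prop :=
  x₀ < x₁ ∧ ∃ s : ℝ, s * (x₁ - x₀) = y₁ - y₀ ∧ ∀ x, x₀ ≤ x → x ≤ x₁ → f x = y₀ + (x - x₀) * s

/-- the path is the graph of `f` -/
def PFit (f : ℝ → ℝ) : List (ℚ × ℚ) → Prop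
  | [] => False
  | [p] => f p.1 = p.2
  | p :: r :: L => Aff f p.1 p.2 r.1 r.2 ∧ PFit f (r :: L)

theorem PFit.tail {f : ℝ → ℝ} {p r : ℚ × ℚ} {L : List (ℚ × ℚ)} (h : PFit f (p :: r :: L)) :
    PFit f (r :: L) := h.2

theorem Aff.left {f : ℝ → ℝ} {x₀ y₀ x₁ y₁ : ℝ} (h : Aff f x₀ y₀ x₁ y₁) : f x₀ = y₀ := by
  obtain ⟨h1, s, -, h3⟩ := h
  rw [h3 x₀ le_rfl h1.le]
  ring

theorem Aff.right {f : ℝ → ℝ} {x₀ y₀ x₁ y₁ : ℝ} (h : Aff f x₀ y₀ x₁ y₁) : f x₁ = y₁ := by
  obtain ⟨h1, s, h2, h3⟩ := h
  rw [h3 x₁ h1.le le_rfl]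
  linarith

theorem Aff.interp {f : ℝ → ℝ} {x₀ y₀ x₁ y₁ : ℝ} (h : Aff f x₀ y₀ x₁ y₁) {x : ℝ} (hx : x₀ ≤ x)
    (hx' : x ≤ x₁) : y₀ + (x - x₀) / (x₁ - x₀) * (y₁ - y₀) = f x := by
  obtain ⟨h1, s, h2, h3⟩ := h
  rw [h3 x hx hx', ← h2]
  have : x₁ - x₀ ≠ 0 := by linarith
  field_simp

theorem Aff.mem_segment {f : ℝ → ℝ} {p r : ℚ × ℚ} (h : Aff f p.1 p.2 r.1 r.2) (z : ℂ) :
    z ∈ segment ℝ (pt p) (pt r) ↔ (p.1 : ℝ) ≤ z.re ∧ z.re ≤ r.1 ∧ z.im = f z.re := by
  obtain ⟨h1, s, h2, h3⟩ := h
  constructor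
  · rintro ⟨a, b, ha, hb, hab, hz⟩
    have hre : z.re = a * (p.1 : ℝ) + b * (r.1 : ℝ) := by rw [← hz]; simp [pt]
    have him : z.im = a * (p.2 : ℝ) + b * (r.2 : ℝ) := by rw [← hz]; simp [pt]
    have e : a = 1 - b := by linarith
    subst e
    have h4 : (p.1 : ℝ) ≤ z.re := by rw [hre]; nlinarith
    have h5 : z.re ≤ (r.1 : ℝ) := by rw [hre]; nlinarith
    refine ⟨h4, h5, ?_⟩
    rw [h3 _ h4 h5, him, hre]
    have : (r.2 : ℝ) = p.2 + s * (r.1 - p.1) := by linarith
    rw [this]
    ring
  · rintro ⟨h4, h5, h6⟩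
    have h7 : (0 : ℝ) < r.1 - p.1 := by linarith
    refine ⟨(r.1 - z.re) / (r.1 - p.1), (z.re - p.1) / (r.1 - p.1),
      div_nonneg (by linarith) h7.le, div_nonneg (by linarith) h7.le, ?_, ?_⟩
    · rw [← add_div, div_eq_one_iff_eq h7.ne']
      ring
    · apply Complex.ext
      · simp only [pt, Complex.add_re, Complex.smul_re, smul_eq_mul]
        field_simp
        ring
      · simp only [pt, Complex.add_im, Complex.smul_im, smul_eq_mul]
        rw [h6, h3 _ h4 h5]
        have : (r.2 : ℝ) = p.2 + s * (r.1 - p.1) := by linarith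
        rw [this]
        field_simp
        ring

theorem PFit.le : ∀ {f : ℝ → ℝ} {L : List (ℚ × ℚ)} {A B : ℚ × ℚ}, PFit f L →
    L.head? = some A → L.getLast? = some B → A.1 ≤ B.1
  | f, [], A, B, h, _, _ => h.elim
  | f, [p], A, B, h, hA, hB => by
    have h1 : p = A := by simpa using hA
    have h2 : p = B := by simpa using hB
    rw [← h1, ← h2]
  | f, p :: r :: L, A, B, h, hA, hB => by
    have h1 : p = A := by simpa using hA
    have h2 := PFit.le h.2 (A := r) (B := B) rfl (by simpa using hB)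
    have h3 : p.1 < r.1 := by exact_mod_cast h.1.1
    rw [← h1]
    linarith

theorem PFit.mem_pathSet : ∀ {f : ℝ → ℝ} {L : List (ℚ × ℚ)} {A B : ℚ × ℚ}, PFit f L →
    L.head? = some A → L.getLast? = some B →
    ∀ z, z ∈ pathSet L ↔ (A.1 : ℝ) ≤ z.re ∧ z.re ≤ B.1 ∧ z.im = f z.re
  | f, [], A, B, h, _, _ => h.elim
  | f, [p], A, B, h, hA, hB => by
    have h1 : p = A := by simpa using hA
    have h2 : p = B := by simpa using hB
    subst h1
    intro z
    rw [pathSet_singleton, ← h2]
    constructor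
    · intro hz
      have hz : z = pt p := hz
      rw [hz]
      exact ⟨le_rfl, le_rfl, h.symm⟩
    · rintro ⟨h3, h4, h5⟩
      have h6 : z.re = p.1 := le_antisymm h4 h3
      rw [h6] at h5
      exact Complex.ext h6 (h5.trans h)
  | f, p :: r :: L, A, B, h, hA, hB => by
    have h1 : p = A := by simpa using hA
    have hB' : (r :: L).getLast? = some B := by simpa using hB
    subst h1
    intro z
    have h2 : (r.1 : ℝ) ≤ B.1 := by exact_mod_cast PFit.le h.2 rfl hB'
    have h3 : (p.1 : ℝ) < r.1 := h.1.1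
    rw [pathSet_cons, Set.mem_union, h.1.mem_segment, PFit.mem_pathSet h.2 (A := r) rfl hB']
    constructor
    · rintro (⟨a, b, c⟩ | ⟨a, b, c⟩)
      · exact ⟨a, b.trans h2, c⟩
      · exact ⟨h3.le.trans a, b, c⟩
    · rintro ⟨a, b, c⟩
      rcases le_total z.re (r.1 : ℝ) with h4 | h4
      · exact Or.inl ⟨a, h4, c⟩
      · exact Or.inr ⟨h4, b, c⟩

theorem PFit.chainVal_eq : ∀ {f : ℝ → ℝ} {L : List (ℚ × ℚ)} {A B : ℚ × ℚ}, PFit f L →
    L.head? = some A → L.getLast? = some B →
    ∀ x, (A.1 : ℝ) ≤ x → x ≤ B.1 → chainVal L x = f x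
  | f, [], A, B, h, _, _ => h.elim
  | f, [p], A, B, h, hA, hB => by
    have h1 : p = A := by simpa using hA
    have h2 : p = B := by simpa using hB
    subst h1
    intro x h3 h4
    rw [← h2] at h4
    have h5 : x = p.1 := le_antisymm h4 h3
    rw [h5]
    exact h.symm
  | f, p :: r :: L, A, B, h, hA, hB => by
    have h1 : p = A := by simpa using hA
    have hB' : (r :: L).getLast? = some B := by simpa using hB
    subst h1
    intro x h3 h4
    unfold chainVal
    split_ifs with h5
    · exact h.1.interp h3 h5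
    · exact PFit.chainVal_eq h.2 (A := r) rfl hB' x (le_of_not_ge h5) h4

/-! ### Criteria for `WeakX` -/

theorem weakX_singleton (p : ℚ × ℚ) : WeakX [p] := by
  refine ⟨fun i hi => ?_, fun i hi => ?_⟩
  · simp at hi
  · simp at hi

theorem weakX_cons {p r : ℚ × ℚ} {L : List (ℚ × ℚ)} (h1 : p.1 ≤ r.1) (h2 : p ≠ r)
    (h3 : ∀ s, L.head? = some s → p.1 < s.1) (h4 : WeakX (r :: L)) : WeakX (p :: r :: L) := by
  refine ⟨fun i hi => ?_, fun i hi => ?_⟩
  · rcases i with _ | i
    · simpa using ⟨h1, h2⟩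
    · have := h4.1 i (by simpa using hi)
      simpa using this
  · rcases i with _ | i
    · cases L with
      | nil => simp at hi
      | cons s L => simpa using h3 s rfl
    · have := h4.2 i (by simp only [List.length_cons] at hi ⊢; omega)
      simpa using this

theorem PFit.weakX_append : ∀ {f : ℝ → ℝ} {L : List (ℚ × ℚ)} {v w : ℚ × ℚ} {L' : List (ℚ × ℚ)},
    PFit f L → L.getLast? = some v → v.1 ≤ w.1 → v ≠ w →
    (∀ s, L'.head? = some s → w.1 < s.1) → WeakX (w :: L') → WeakX (L ++ w :: L')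
  | f, [], v, w, L', h, _, _, _, _, _ => h.elim
  | f, [p], v, w, L', h, hv, h1, h2, h3, h4 => by
    have h5 : p = v := by simpa using hv
    subst h5
    exact weakX_cons h1 h2 (fun s hs => h1.trans_lt (h3 s hs)) h4
  | f, p :: r :: L, v, w, L', h, hv, h1, h2, h3, h4 => by
    have h5 : p.1 < r.1 := by exact_mod_cast h.1.1
    have hv' : (r :: L).getLast? = some v := by simpa using hv
    have ih := PFit.weakX_append h.2 hv' h1 h2 h3 h4
    refine weakX_cons h5.le (fun e => by rw [e] at h5; exact lt_irrefl _ h5) ?_ ih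
    intro s hs
    cases L with
    | nil =>
      have e1 : w = s := by simpa using hs
      have e2 : r = v := by simpa using hv'
      rw [← e1]
      rw [e2] at h5
      exact h5.trans_le h1
    | cons a L =>
      have e1 : a = s := by simpa using hs
      have h6 : r.1 < a.1 := by exact_mod_cast h.2.1.1
      rw [← e1]
      exact h5.trans h6

theorem PFit.head_lt {f : ℝ → ℝ} {w : ℚ × ℚ} {L : List (ℚ × ℚ)} (h : PFit f (w :: L)) :
    ∀ s, L.head? = some s → w.1 < s.1 := by
  intro s hs
  cases L with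
  | nil => simp at hs
  | cons a L =>
    have e1 : a = s := by simpa using hs
    rw [← e1]
    exact_mod_cast h.1.1

theorem PFit.weakX : ∀ {f : ℝ → ℝ} {L : List (ℚ × ℚ)}, PFit f L → WeakX L
  | f, [], h => h.elim
  | f, [p], _ => weakX_singleton p
  | f, p :: r :: L, h => by
    have h5 : p.1 < r.1 := by exact_mod_cast h.1.1
    exact weakX_cons h5.le (fun e => by rw [e] at h5; exact lt_irrefl _ h5)
      (fun s hs => h5.trans (h.2.head_lt s hs)) h.2.weakX

/-! ### Two graphs joined by a vertical edge -/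

theorem pathSet_append : ∀ {L L' : List (ℚ × ℚ)} {v w : ℚ × ℚ}, L.getLast? = some v →
    L'.head? = some w → ∀ z, z ∈ pathSet (L ++ L') ↔ z ∈ pathSet L ∨
      z ∈ segment ℝ (pt v) (pt w) ∨ z ∈ pathSet L'
  | [], L', v, w, h, _ => by simp at h
  | [p], [], v, w, _, h => by simp at h
  | [p], r :: L', v, w, hv, hw => by
    have h1 : p = v := by simpa using hv
    have h2 : r = w := by simpa using hw
    subst h1
    subst h2
    intro z
    rw [List.singleton_append, pathSet_cons, pathSet_singleton, Set.mem_union]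
    constructor
    · rintro (h | h)
      · exact Or.inr (Or.inl h)
      · exact Or.inr (Or.inr h)
    · rintro (h | h | h)
      · have h : z = pt p := h
        rw [h]
        exact Or.inl (left_mem_segment ℝ _ _)
      · exact Or.inl h
      · exact Or.inr h
  | p :: r :: L, L', v, w, hv, hw => by
    intro z
    have hv' : (r :: L).getLast? = some v := by simpa using hv
    have ih := pathSet_append hv' hw z
    rw [List.cons_append, List.cons_append, pathSet_cons, Set.mem_union, ← List.cons_append, ih,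
      pathSet_cons, Set.mem_union]
    tauto

theorem chainVal_append_left : ∀ {L L' : List (ℚ × ℚ)} {v w : ℚ × ℚ}, L.getLast? = some v →
    L'.head? = some w → v.1 = w.1 → ∀ x : ℝ, x ≤ v.1 → chainVal (L ++ L') x = chainVal L x
  | [], L', v, w, h, _, _ => by simp at h
  | [p], [], v, w, _, h, _ => by simp at h
  | [p], r :: L', v, w, hv, hw, hvw => by
    have h1 : p = v := by simpa using hv
    have h2 : r = w := by simpa using hw
    subst h1
    subst h2
    intro x hx
    rw [List.singleton_append]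
    unfold chainVal
    rw [← hvw, if_pos hx]
    simp
  | p :: r :: L, L', v, w, hv, hw, hvw => by
    intro x hx
    have hv' : (r :: L).getLast? = some v := by simpa using hv
    have ih := chainVal_append_left hv' hw hvw x hx
    rw [List.cons_append, List.cons_append]
    unfold chainVal
    rw [← List.cons_append, ih]

theorem PFit.chainVal_append_right : ∀ {f : ℝ → ℝ} {L L' : List (ℚ × ℚ)} {v w : ℚ × ℚ},
    PFit f L → L.getLast? = some v → L'.head? = some w → v.1 = w.1 → ∀ x : ℝ, v.1 < x →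
    chainVal (L ++ L') x = chainVal L' x
  | f, [], L', v, w, h, _, _, _ => h.elim
  | f, [p], [], v, w, _, _, h, _ => by simp at h
  | f, [p], r :: L', v, w, _, hv, hw, hvw => by
    have h1 : p = v := by simpa using hv
    have h2 : r = w := by simpa using hw
    subst h1
    subst h2
    intro x hx
    rw [List.singleton_append]
    conv_lhs => unfold chainVal
    rw [if_neg]
    rw [← hvw]
    exact not_le.2 hx
  | f, p :: r :: L, L', v, w, h, hv, hw, hvw => by
    intro x hx
    have hv' : (r :: L).getLast? = some v := by simpa using hv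
    have ih := PFit.chainVal_append_right h.2 hv' hw hvw x hx
    have h1 : (r.1 : ℝ) ≤ v.1 := by exact_mod_cast PFit.le h.2 rfl hv'
    rw [List.cons_append, List.cons_append]
    conv_lhs => unfold chainVal
    rw [if_neg (not_le.2 (h1.trans_lt hx)), ← List.cons_append, ih]

theorem mem_vert {p r : ℚ × ℚ} (h : p.1 = r.1) (z : ℂ) :
    z ∈ segment ℝ (pt p) (pt r) ↔ z.re = p.1 ∧ min (p.2 : ℝ) r.2 ≤ z.im ∧
      z.im ≤ max (p.2 : ℝ) r.2 := by
  have hR : (p.1 : ℝ) = r.1 := by exact_mod_cast h
  constructor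
  · rintro ⟨a, b, ha, hb, hab, hz⟩
    have hre : z.re = a * (p.1 : ℝ) + b * (r.1 : ℝ) := by rw [← hz]; simp [pt]
    have him : z.im = a * (p.2 : ℝ) + b * (r.2 : ℝ) := by rw [← hz]; simp [pt]
    have e : a = 1 - b := by linarith
    subst e
    refine ⟨by rw [hre, hR]; ring, ?_, ?_⟩
    · rw [him]
      rcases le_total (p.2 : ℝ) r.2 with h1 | h1
      · rw [min_eq_left h1]; nlinarith
      · rw [min_eq_right h1]; nlinarith
    · rw [him]
      rcases le_total (p.2 : ℝ) r.2 with h1 | h1
      · rw [max_eq_right h1]; nlinarith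
      · rw [max_eq_left h1]; nlinarith
  · rintro ⟨h1, h2, h3⟩
    rcases eq_or_ne (p.2 : ℝ) r.2 with h4 | h4
    · rw [h4, min_self] at h2
      rw [h4, max_self] at h3
      have h5 : z = pt r := Complex.ext (by rw [h1, hR]; rfl) (le_antisymm h3 h2)
      rw [h5]
      exact right_mem_segment ℝ _ _
    · rcases lt_or_gt_of_ne h4 with h5 | h5
      · rw [min_eq_left h5.le] at h2
        rw [max_eq_right h5.le] at h3
        have h6 : (0 : ℝ) < r.2 - p.2 := by linarith
        refine ⟨(r.2 - z.im) / (r.2 - p.2), (z.im - p.2) / (r.2 - p.2),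
          div_nonneg (by linarith) h6.le, div_nonneg (by linarith) h6.le, ?_, ?_⟩
        · rw [← add_div, div_eq_one_iff_eq h6.ne']
          ring
        · apply Complex.ext
          · simp only [pt, Complex.add_re, Complex.smul_re, smul_eq_mul]
            rw [← hR, h1]
            field_simp
            ring
          · simp only [pt, Complex.add_im, Complex.smul_im, smul_eq_mul]
            field_simp
            ring
      · rw [min_eq_right h5.le] at h2
        rw [max_eq_left h5.le] at h3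
        have h6 : (0 : ℝ) < p.2 - r.2 := by linarith
        refine ⟨(z.im - r.2) / (p.2 - r.2), (p.2 - z.im) / (p.2 - r.2),
          div_nonneg (by linarith) h6.le, div_nonneg (by linarith) h6.le, ?_, ?_⟩
        · rw [← add_div, div_eq_one_iff_eq h6.ne']
          ring
        · apply Complex.ext
          · simp only [pt, Complex.add_re, Complex.smul_re, smul_eq_mul]
            rw [← hR, h1]
            field_simp
            ring
          · simp only [pt, Complex.add_im, Complex.smul_im, smul_eq_mul]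
            field_simp
            ring

end Pool.Agent.Helper2_Pak.H26
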