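import Pool.Agent.Helper2_Pak.StmtsP

/-!
# Paths which go to the right
-/

namespace Pool.Agent.Helper2_Pak.H26

open Pool.Agent.Helper2_Pack (Polygon pt Crosses region IsSimple chainVal)

/-! ### Basic facts -/

theorem segP_re {L : Polygon} {i : ℕ} {z : ℂ} (h : z ∈ segP L i) :
    ∃ a b : ℝ, 0 ≤ a ∧ 0 ≤ b ∧ a + b = 1 ∧
      z.re = a * ((L.getD i 0).1 : ℝ) + b * ((L.getD (i + 1) 0).1 : ℝ) ∧
      z.im = a * ((L.getD i 0).2 : ℝ) + b * ((L.getD (i + 1) 0).2 : ℝ) := by
  obtain ⟨a, b, ha, hb, hab, h⟩ := h
  refine ⟨a, b, ha, hb, hab, ?_, ?_⟩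
  · rw [← h]; simp [pt]
  · rw [← h]; simp [pt]

theorem pathSet_cons (p r : ℚ × ℚ) (L : Polygon) :
    pathSet (p :: r :: L) = segment ℝ (pt p) (pt r) ∪ pathSet (r :: L) := by
  ext z
  constructor
  · rintro (⟨i, hi, hz⟩ | ⟨q, hq, -⟩)
    · rcases i with _ | i
      · left
        simpa [segP] using hz
      · right
        left
        refine ⟨i, by simpa using hi, ?_⟩
        simpa [segP] using hz
    · simp at hq
  · rintro (hz | (⟨i, hi, hz⟩ | ⟨q, hq, hz⟩))
    · left
      exact ⟨0, by simp, by simpa [segP] using hz⟩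
    · left
      exact ⟨i + 1, by simpa using hi, by simpa [segP] using hz⟩
    · left
      refine ⟨0, by simp, ?_⟩
      have h1 : r = q := by simpa using (List.cons.inj hq).1
      rw [hz, ← h1]
      simpa [segP] using right_mem_segment ℝ (pt p) (pt r)

theorem pathSet_singleton (p : ℚ × ℚ) : pathSet [p] = {pt p} := by
  ext z
  constructor
  · rintro (⟨i, hi, -⟩ | ⟨q, hq, hz⟩)
    · simp at hi
    · have : p = q := by simpa using hq
      rw [hz, ← this]; rfl
  · intro h
    exact Or.inr ⟨p, rfl, h⟩

theorem cr_cons (z : ℂ) (p r : ℚ × ℚ) (L : Polygon) :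
    cr z (p :: r :: L) = (open Classical in if Crosses z (pt p) (pt r) then 1 else 0) +
      cr z (r :: L) := by
  classical
  unfold cr
  simp only [List.tail_cons, List.zip_cons_cons, List.countP_cons]
  rw [add_comm]
  congr 1
  by_cases h : Crosses z (pt p) (pt r) <;> simp [h]

theorem cr_singleton (z : ℂ) (p : ℚ × ℚ) : cr z [p] = 0 := by
  unfold cr
  simp

theorem WeakX.tail {p : ℚ × ℚ} {L : Polygon} (h : WeakX (p :: L)) : WeakX L := by
  refine ⟨fun i hi => ?_, fun i hi => ?_⟩
  · have := h.1 (i + 1) (by simpa using hi)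
    simpa using this
  · have := h.2 (i + 1) (by simp only [List.length_cons]; omega)
    simpa using this

theorem WeakX.mono {L : Polygon} (h : WeakX L) {i j : ℕ} (hij : i ≤ j) (hj : j < L.length) :
    (L.getD i 0).1 ≤ (L.getD j 0).1 := by
  induction j, hij using Nat.le_induction with
  | base => exact le_rfl
  | succ j hij ih => exact (ih (by omega)).trans (h.1 j hj).1

theorem getD_zero {L : Polygon} {A : ℚ × ℚ} (h : L.head? = some A) : L.getD 0 0 = A := by
  cases L with
  | nil => simp at h
  | cons a L => simpa using h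

theorem getD_last {L : Polygon} {B : ℚ × ℚ} (h : L.getLast? = some B) :
    L.getD (L.length - 1) 0 = B := by
  rw [List.getLast?_eq_getElem?] at h
  rw [List.getD_eq_getElem?_getD, h]
  rfl

/-! ### Simple paths -/

/-- the reverse of a simple path is simple -/
theorem SimpleP.reverse {L : Polygon} (h : SimpleP L) : SimpleP L.reverse := by
  have e : ∀ i, i < L.length → L.reverse.getD i 0 = L.getD (L.length - 1 - i) 0 := by
    intro i hi
    rw [List.getD_eq_getElem?_getD, List.getD_eq_getElem?_getD, List.getElem?_reverse hi]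
  refine ⟨fun i hi => ?_, fun i j hij hj z hz hz' => ?_⟩
  · rw [List.length_reverse] at hi
    rw [e i (by omega), e (i + 1) hi]
    have := h.1 (L.length - 1 - (i + 1)) (by omega)
    rw [show L.length - 1 - (i + 1) + 1 = L.length - 1 - i by omega] at this
    exact this.symm
  · rw [List.length_reverse] at hj
    have hs : ∀ k, k + 1 < L.length → segP L.reverse k = segP L (L.length - 2 - k) := by
      intro k hk
      unfold segP
      rw [e k (by omega), e (k + 1) hk, segment_symm]
      rw [show L.length - 1 - (k + 1) = L.length - 2 - k by omega,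
        show L.length - 1 - k = L.length - 2 - k + 1 by omega]
    rw [hs i (by omega)] at hz
    rw [hs j hj] at hz'
    obtain ⟨h1, h2⟩ := h.2 (L.length - 2 - j) (L.length - 2 - i) (by omega) (by omega) z hz' hz
    refine ⟨by omega, ?_⟩
    rw [h2, e j (by omega)]
    congr 2
    omega

/-- the points of a path whose abscissas are increasing -/
theorem WeakX.segP_bounds {L : Polygon} (h : WeakX L) {i : ℕ} (hi : i + 1 < L.length) {z : ℂ}
    (hz : z ∈ segP L i) : ((L.getD i 0).1 : ℝ) ≤ z.re ∧ z.re ≤ ((L.getD (i + 1) 0).1 : ℝ) := by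
  obtain ⟨a, b, ha, hb, hab, h1, -⟩ := segP_re hz
  have h2 : ((L.getD i 0).1 : ℝ) ≤ ((L.getD (i + 1) 0).1 : ℝ) := by exact_mod_cast (h.1 i hi).1
  have e : a = 1 - b := by linarith
  subst e
  rw [h1]
  constructor <;> nlinarith

theorem seg_right {L : Polygon} {i : ℕ} (h : (L.getD i 0).1 < (L.getD (i + 1) 0).1) {z : ℂ}
    (hz : z ∈ segP L i) (he : z.re = ((L.getD (i + 1) 0).1 : ℝ)) : z = pt (L.getD (i + 1) 0) := by
  obtain ⟨a, b, ha, hb, hab, h1, h3⟩ := segP_re hz
  have h2 : ((L.getD i 0).1 : ℝ) < ((L.getD (i + 1) 0).1 : ℝ) := by exact_mod_cast h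
  have e : b = 1 - a := by linarith
  subst e
  have h4 : a * (((L.getD (i + 1) 0).1 : ℝ) - ((L.getD i 0).1 : ℝ)) = 0 := by
    rw [he] at h1
    linarith
  have h5 : a = 0 := by
    rcases mul_eq_zero.1 h4 with h | h
    · exact h
    · linarith
  subst h5
  apply Complex.ext
  · simpa [pt] using he
  · simpa [pt] using h3

theorem seg_left {L : Polygon} {i : ℕ} (h : (L.getD i 0).1 < (L.getD (i + 1) 0).1) {z : ℂ}
    (hz : z ∈ segP L i) (he : z.re = ((L.getD i 0).1 : ℝ)) : z = pt (L.getD i 0) := by
  obtain ⟨a, b, ha, hb, hab, h1, h3⟩ := segP_re hz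
  have h2 : ((L.getD i 0).1 : ℝ) < ((L.getD (i + 1) 0).1 : ℝ) := by exact_mod_cast h
  have e : a = 1 - b := by linarith
  subst e
  have h4 : b * (((L.getD (i + 1) 0).1 : ℝ) - ((L.getD i 0).1 : ℝ)) = 0 := by
    rw [he] at h1
    linarith
  have h5 : b = 0 := by
    rcases mul_eq_zero.1 h4 with h | h
    · exact h
    · linarith
  subst h5
  apply Complex.ext
  · simpa [pt] using he
  · simpa [pt] using h3

theorem WeakX.simple {L : Polygon} (h : WeakX L) : SimpleP L := by
  refine ⟨fun i hi => (h.1 i hi).2, fun i j hij hj z hz hz' => ?_⟩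
  obtain ⟨-, b1⟩ := WeakX.segP_bounds h (by omega) hz
  obtain ⟨b2, -⟩ := WeakX.segP_bounds h hj hz'
  have b3 : ((L.getD (i + 1) 0).1 : ℝ) ≤ ((L.getD j 0).1 : ℝ) := by
    exact_mod_cast WeakX.mono h (show i + 1 ≤ j by omega) (by omega)
  have c1 : z.re = ((L.getD (i + 1) 0).1 : ℝ) := le_antisymm b1 (b3.trans b2)
  have c2 : z.re = ((L.getD j 0).1 : ℝ) := le_antisymm (b1.trans b3) b2
  have c3 : (L.getD (i + 1) 0).1 = (L.getD j 0).1 := by
    have : ((L.getD (i + 1) 0).1 : ℝ) = ((L.getD j 0).1 : ℝ) := by rw [← c1, ← c2]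
    exact_mod_cast this
  rcases Nat.lt_or_ge (i + 1) j with hlt | hge
  · exfalso
    rcases Nat.lt_or_ge (i + 2) j with hlt2 | hge2
    · have d1 := h.2 (i + 1) (by omega)
      have d2 := WeakX.mono h (show i + 1 + 2 ≤ j by omega) (by omega)
      rw [c3] at d1
      exact absurd (d1.trans_le d2) (lt_irrefl _)
    · obtain rfl : j = i + 2 := by omega
      have d1 := h.2 i (by omega)
      have d2 := h.2 (i + 1) (by omega)
      have e1 : z = pt (L.getD (i + 1) 0) :=
        seg_right (by rw [c3]; exact d1) hz c1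
      have e2 : z = pt (L.getD (i + 2) 0) :=
        seg_left (by rw [← c3]; exact d2) hz' c2
      have d3 := (h.1 (i + 1) (by omega)).2
      apply d3
      have e3 : pt (L.getD (i + 1) 0) = pt (L.getD (i + 2) 0) := by rw [← e1, ← e2]
      refine Prod.ext c3 ?_
      have e4 := congrArg Complex.im e3
      simp only [pt] at e4
      exact_mod_cast e4
  · obtain rfl : j = i + 1 := by omega
    refine ⟨rfl, ?_⟩
    rcases (h.1 i (by omega)).1.lt_or_eq with h1 | h1
    · exact seg_right h1 hz c1
    · have h2 := h.2 i (by omega)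
      rw [h1] at h2
      exact seg_left h2 hz' c2

/-! ### Parity -/

theorem chainVal_head (p : ℚ × ℚ) (L : Polygon) (x : ℝ) (hx : x = (p.1 : ℝ))
    (h : ∀ r, L.head? = some r → p.1 ≤ r.1) : chainVal (p :: L) x = p.2 := by
  cases L with
  | nil => rfl
  | cons r L =>
    have h1 : p.1 ≤ r.1 := h r rfl
    have h2 : x ≤ (r.1 : ℝ) := by rw [hx]; exact_mod_cast h1
    unfold chainVal
    rw [if_pos h2, hx]
    simp

theorem cr_eq : ∀ (L : Polygon) (A B : ℚ × ℚ), WeakX L → L.head? = some A →
    L.getLast? = some B → ∀ z, z ∉ pathSet L →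
    cr z L = (open Classical in if (A.1 : ℝ) ≤ z.re ∧ z.re < B.1 ∧ z.im < chainVal L z.re then 1
      else 0)
  | [], A, B, _, h, _, _, _ => by simp at h
  | [p], A, B, _, hA, hB, z, _ => by
    have h1 : p = A := by simpa using hA
    have h2 : p = B := by simpa using hB
    subst h1
    rw [cr_singleton, if_neg]
    rintro ⟨h3, h4, -⟩
    rw [← h2] at h4
    exact absurd (h3.trans_lt h4) (lt_irrefl _)
  | p :: r :: L, A, B, hW, hA, hB, z, hz => by
    have h1 : p = A := by simpa using hA
    subst h1
    have hB' : (r :: L).getLast? = some B := by simpa using hB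
    rw [pathSet_cons] at hz
    have hz1 : z ∉ segment ℝ (pt p) (pt r) := fun h => hz (Or.inl h)
    have hz2 : z ∉ pathSet (r :: L) := fun h => hz (Or.inr h)
    have ih := cr_eq (r :: L) r B (WeakX.tail hW) rfl hB' z hz2
    have hpr : p.1 ≤ r.1 := by simpa using (hW.1 0 (by simp)).1
    have hrB : r.1 ≤ B.1 := by
      have h2 := WeakX.mono (WeakX.tail hW) (i := 0) (j := (r :: L).length - 1) (by omega) (by simp)
      rw [getD_last hB'] at h2
      simpa using h2
    have hprR : (p.1 : ℝ) ≤ r.1 := by exact_mod_cast hpr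
    have hrBR : (r.1 : ℝ) ≤ B.1 := by exact_mod_cast hrB
    have hhead : ∀ s, L.head? = some s → r.1 ≤ s.1 := by
      intro s hs
      cases L with
      | nil => simp at hs
      | cons a L =>
        have ha : a = s := by simpa using hs
        have := (hW.1 1 (by simp)).1
        subst ha
        simpa using this
    rw [cr_cons, ih]
    rcases hpr.lt_or_eq with hlt | heq
    · have hltR : (p.1 : ℝ) < r.1 := by exact_mod_cast hlt
      have hcross : Crosses z (pt p) (pt r) ↔ ((p.1 : ℝ) ≤ z.re ∧ z.re < r.1 ∧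
          z.im < chainVal (p :: r :: L) z.re) := by
        unfold Crosses
        simp only [pt]
        constructor
        · rintro ⟨h2 | h2, h3⟩
          · refine ⟨h2.1, h2.2, ?_⟩
            unfold chainVal
            rw [if_pos h2.2.le]
            exact h3
          · exact absurd (h2.1.trans_lt h2.2) (not_lt.2 hprR)
        · rintro ⟨h2, h3, h4⟩
          refine ⟨Or.inl ⟨h2, h3⟩, ?_⟩
          unfold chainVal at h4
          rw [if_pos h3.le] at h4
          exact h4
      rcases lt_or_ge z.re (r.1 : ℝ) with h5 | h5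
      · rw [if_neg (show ¬ ((r.1 : ℝ) ≤ z.re ∧ z.re < B.1 ∧ z.im < chainVal (r :: L) z.re) from
          fun h => absurd h.1 (not_le.2 h5))]
        rw [add_zero]
        by_cases h6 : Crosses z (pt p) (pt r)
        · rw [if_pos h6, if_pos]
          obtain ⟨a1, a2, a3⟩ := hcross.1 h6
          exact ⟨a1, a2.trans_le hrBR, a3⟩
        · rw [if_neg h6, if_neg]
          rintro ⟨a1, a2, a3⟩
          exact h6 (hcross.2 ⟨a1, h5, a3⟩)
      · rw [if_neg (show ¬ Crosses z (pt p) (pt r) from
          fun h => absurd (hcross.1 h).2.1 (not_lt.2 h5)), zero_add]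
        have hval : chainVal (p :: r :: L) z.re = chainVal (r :: L) z.re := by
          rcases h5.lt_or_eq with h6 | h6
          · conv_lhs => unfold chainVal
            rw [if_neg (not_le.2 h6)]
          · rw [chainVal_head r L z.re h6.symm hhead]
            conv_lhs => unfold chainVal
            rw [if_pos h6.symm.le, ← h6, div_self (by linarith)]
            ring
        rw [hval]
        by_cases h6 : (r.1 : ℝ) ≤ z.re ∧ z.re < B.1 ∧ z.im < chainVal (r :: L) z.re
        · rw [if_pos h6, if_pos ⟨hprR.trans h6.1, h6.2⟩]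
        · rw [if_neg h6, if_neg]
          rintro ⟨a1, a2, a3⟩
          exact h6 ⟨h5, a2, a3⟩
    · have heqR : (p.1 : ℝ) = r.1 := by exact_mod_cast heq
      rw [if_neg (show ¬ Crosses z (pt p) (pt r) from ?_), zero_add]
      swap
      · rintro ⟨h2 | h2, -⟩
        · simp only [pt] at h2
          exact absurd (h2.1.trans_lt h2.2) (not_lt.2 heqR.symm.le)
        · simp only [pt] at h2
          exact absurd (h2.1.trans_lt h2.2) (not_lt.2 heqR.le)
      rw [← heqR]
      have key : (p.1 : ℝ) ≤ z.re → z.re < B.1 →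
          (z.im < chainVal (r :: L) z.re ↔ z.im < chainVal (p :: r :: L) z.re) := by
        intro h2 h3
        rcases h2.lt_or_eq with h4 | h4
        · have h5 : chainVal (p :: r :: L) z.re = chainVal (r :: L) z.re := by
            conv_lhs => unfold chainVal
            rw [if_neg (not_le.2 (by rw [← heqR]; exact h4))]
          rw [h5]
        · rw [chainVal_head r L z.re (by rw [← h4, heqR]) hhead]
          rw [chainVal_head p (r :: L) z.re h4.symm (fun s hs => by
            have : r = s := by simpa using hs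
            rw [← this]; exact hpr)]
          have hseg : ∀ y : ℝ, (∃ a b : ℝ, 0 ≤ a ∧ 0 ≤ b ∧ a + b = 1 ∧
              y = a * (p.2 : ℝ) + b * (r.2 : ℝ)) → z.im ≠ y := by
            rintro y ⟨a, b, ha, hb, hab, hy⟩ hzy
            apply hz1
            refine ⟨a, b, ha, hb, hab, ?_⟩
            apply Complex.ext
            · simp only [pt, Complex.add_re, Complex.smul_re, smul_eq_mul]
              rw [← heqR, ← add_mul, hab, one_mul, h4]
            · simp only [pt, Complex.add_im, Complex.smul_im, smul_eq_mul]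
              rw [← hy, hzy]
          constructor
          · intro h5
            by_contra h6
            rw [not_lt] at h6
            -- p.2 ≤ z.im < r.2
            have h7 : (p.2 : ℝ) < r.2 := h6.trans_lt h5
            refine hseg z.im ⟨(r.2 - z.im) / (r.2 - p.2), (z.im - p.2) / (r.2 - p.2),
              div_nonneg (by linarith) (by linarith), div_nonneg (by linarith) (by linarith),
              ?_, ?_⟩ rfl
            · rw [← add_div]
              rw [div_eq_one_iff_eq (by linarith)]
              ring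
            · have : (r.2 - p.2 : ℝ) ≠ 0 := by linarith
              field_simp
              ring
          · intro h5
            by_contra h6
            rw [not_lt] at h6
            have h7 : (r.2 : ℝ) < p.2 := h6.trans_lt h5
            refine hseg z.im ⟨(z.im - r.2) / (p.2 - r.2), (p.2 - z.im) / (p.2 - r.2),
              div_nonneg (by linarith) (by linarith), div_nonneg (by linarith) (by linarith),
              ?_, ?_⟩ rfl
            · rw [← add_div]
              rw [div_eq_one_iff_eq (by linarith)]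
              ring
            · have : (p.2 - r.2 : ℝ) ≠ 0 := by linarith
              field_simp
              ring
      by_cases h6 : (p.1 : ℝ) ≤ z.re ∧ z.re < B.1 ∧ z.im < chainVal (r :: L) z.re
      · rw [if_pos h6, if_pos ⟨h6.1, h6.2.1, (key h6.1 h6.2.1).1 h6.2.2⟩]
      · rw [if_neg h6, if_neg]
        rintro ⟨a1, a2, a3⟩
        exact h6 ⟨a1, a2, (key a1 a2).2 a3⟩

theorem WeakX.re_bounds {L : Polygon} (h : WeakX L) {A B : ℚ × ℚ} (hA : L.head? = some A)
    (hB : L.getLast? = some B) : ∀ z ∈ pathSet L, (A.1 : ℝ) ≤ z.re ∧ z.re ≤ B.1 := by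
  rintro z (⟨i, hi, hz⟩ | ⟨p, hp, hz⟩)
  · obtain ⟨h1, h2⟩ := WeakX.segP_bounds h hi hz
    have h3 := WeakX.mono h (Nat.zero_le i) (by omega)
    have h4 := WeakX.mono h (show i + 1 ≤ L.length - 1 by omega) (by omega)
    rw [getD_zero hA] at h3
    rw [getD_last hB] at h4
    exact ⟨le_trans (by exact_mod_cast h3) h1, h2.trans (by exact_mod_cast h4)⟩
  · subst hp
    have h1 : p = A := by simpa using hA
    have h2 : p = B := by simpa using hB
    rw [hz, ← h1, ← h2]
    simp [pt]

/-- PA3 -/
theorem pa3 : PA3Stmt := by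
  intro L A B hW hlen hA hB hAB
  refine ⟨WeakX.simple hW, SimpleP.reverse (WeakX.simple hW), WeakX.re_bounds hW hA hB, ?_⟩
  intro z hz
  rw [cr_eq L A B hW hA hB z hz]
  split_ifs <;> rfl

end Pool.Agent.Helper2_Pak.H26
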