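import Pool.Agent.Helper26_Pak.Fit
import Pool.Agent.Helper2_Pak.Cast

/-!
# The ceiling of a column
-/

namespace Pool.Agent.Helper2_Pak.H26

open Pool.Agent.Helper2_Pack (Polygon pt Crosses region IsSimple chainVal)

/-! ### Affine pieces -/

/-- a triangle of height `1` -/
noncomputable def tri (w e : ℝ) : ℝ := max 0 (1 - |e| / w)

theorem dent_eq {t : ℝ} (ht : 0 ≤ t) (e : ℝ) : dent t e = 2 * t ^ 3 * tri (1 / 64) e := by
  unfold dent tri
  rw [mul_max_of_nonneg _ _ (by positivity)]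
  congr 1
  · ring
  · ring

theorem bump_eq {t : ℝ} (ht : 0 < t) (e : ℝ) : bump t e = t ^ 3 * tri (t ^ 3) e := by
  unfold bump tri
  rw [mul_max_of_nonneg _ _ (by positivity)]
  congr 1
  · ring
  · have : t ^ 3 ≠ 0 := by positivity
    field_simp

theorem tri_nonneg (w e : ℝ) : 0 ≤ tri w e := le_max_left _ _

theorem tri_le {w : ℝ} (hw : 0 < w) (e : ℝ) : tri w e ≤ 1 := by
  unfold tri
  refine max_le (by norm_num) ?_
  have : 0 ≤ |e| / w := by positivity
  linarith

theorem tri_zero {w e : ℝ} (hw : 0 < w) (h : w ≤ |e|) : tri w e = 0 := by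
  unfold tri
  refine max_eq_left ?_
  have : 1 ≤ |e| / w := by rwa [le_div_iff₀ hw, one_mul]
  linarith

theorem tri_left {w e : ℝ} (hw : 0 < w) (h1 : -w ≤ e) (h2 : e ≤ 0) : tri w e = 1 + e / w := by
  unfold tri
  rw [abs_of_nonpos h2, max_eq_right]
  · ring
  · have : -e / w ≤ 1 := by rw [div_le_iff₀ hw]; linarith
    linarith

theorem tri_right {w e : ℝ} (hw : 0 < w) (h1 : 0 ≤ e) (h2 : e ≤ w) : tri w e = 1 - e / w := by
  unfold tri
  rw [abs_of_nonneg h1, max_eq_right]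
  have : e / w ≤ 1 := by rw [div_le_iff₀ hw]; linarith
  linarith

theorem ramp_mid {t x : ℝ} (ht : 0 < t) (h1 : t / 4 ≤ x) (h2 : x ≤ 1 - t / 4) : ramp t x = 1 := by
  unfold ramp
  have a1 : 1 ≤ 4 * x / t := by rw [le_div_iff₀ ht]; linarith
  have a2 : 1 ≤ 4 * (1 - x) / t := by rw [le_div_iff₀ ht]; linarith
  exact min_eq_left (le_min a1 a2)

theorem ramp_left {t x : ℝ} (ht : 0 < t) (ht1 : t ≤ 1) (h2 : x ≤ t / 4) :
    ramp t x = 4 * x / t := by
  unfold ramp
  have a1 : 4 * x / t ≤ 1 := by rw [div_le_iff₀ ht]; linarith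
  have a2 : 4 * x / t ≤ 4 * (1 - x) / t := by
    rw [div_le_div_iff_of_pos_right ht]; linarith
  rw [min_eq_left a2, min_eq_right a1]

theorem ramp_right {t x : ℝ} (ht : 0 < t) (ht1 : t ≤ 1) (h2 : 1 - t / 4 ≤ x) :
    ramp t x = 4 * (1 - x) / t := by
  unfold ramp
  have a1 : 4 * (1 - x) / t ≤ 1 := by rw [div_le_iff₀ ht]; linarith
  have a2 : 4 * (1 - x) / t ≤ 4 * x / t := by
    rw [div_le_div_iff_of_pos_right ht]; linarith
  rw [min_eq_right a2, min_eq_right a1]

theorem ramp_nonneg {t x : ℝ} (ht : 0 < t) (h1 : 0 ≤ x) (h2 : x ≤ 1) : 0 ≤ ramp t x := by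
  unfold ramp
  refine le_min (by norm_num) (le_min ?_ ?_)
  · positivity
  · exact div_nonneg (by linarith) ht.le

theorem ramp_le (t x : ℝ) : ramp t x ≤ 1 := min_le_left _ _

theorem aff_const {f : ℝ → ℝ} {x₀ x₁ y y' : ℝ} (h : x₀ < x₁) (hy : y' = y)
    (hf : ∀ x, x₀ ≤ x → x ≤ x₁ → f x = y) : Aff f x₀ y x₁ y' :=
  ⟨h, 0, by rw [hy]; ring, fun x h1 h2 => by rw [hf x h1 h2]; ring⟩

theorem aff_tent_left {f : ℝ → ℝ} {X w Y D : ℝ} (hw : 0 < w)
    (hf : ∀ x, X - w ≤ x → x ≤ X → f x = Y + D * tri w (x - X)) :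
    Aff f (X - w) Y X (Y + D) := by
  refine ⟨by linarith, D / w, ?_, fun x h1 h2 => ?_⟩
  · field_simp
    ring
  · rw [hf x h1 h2, tri_left hw (by linarith) (by linarith)]
    field_simp
    ring

theorem aff_tent_right {f : ℝ → ℝ} {X w Y D : ℝ} (hw : 0 < w)
    (hf : ∀ x, X ≤ x → x ≤ X + w → f x = Y + D * tri w (x - X)) :
    Aff f X (Y + D) (X + w) Y := by
  refine ⟨by linarith, -(D / w), ?_, fun x h1 h2 => ?_⟩
  · field_simp
    ring
  · rw [hf x h1 h2, tri_right hw (by linarith) (by linarith)]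
    field_simp
    ring

theorem aff_ramp_left {f : ℝ → ℝ} {t c Y E : ℝ} (ht : 0 < t) (ht1 : t ≤ 1)
    (hf : ∀ x, c ≤ x → x ≤ c + t / 4 → f x = Y + (E - Y) * ramp t (x - c)) :
    Aff f c Y (c + t / 4) E := by
  refine ⟨by linarith, (E - Y) * (4 / t), ?_, fun x h1 h2 => ?_⟩
  · field_simp
    ring
  · rw [hf x h1 h2, ramp_left ht ht1 (by linarith)]
    field_simp

theorem aff_ramp_right {f : ℝ → ℝ} {t c Y E : ℝ} (ht : 0 < t) (ht1 : t ≤ 1)
    (hf : ∀ x, c + 1 - t / 4 ≤ x → x ≤ c + 1 → f x = Y + (E - Y) * ramp t (x - c)) :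
    Aff f (c + 1 - t / 4) E (c + 1) Y := by
  refine ⟨by linarith, -((E - Y) * (4 / t)), ?_, fun x h1 h2 => ?_⟩
  · field_simp
    ring
  · rw [hf x h1 h2, ramp_right ht ht1 (by linarith)]
    field_simp
    ring

/-- the ceiling of a column which is not a port, with tents -/
theorem fit_tents {f : ℝ → ℝ} {t c T E w S : ℚ} (ht : 0 < t) (ht1 : t ≤ 1 / 1024) (hw : 0 < w)
    (hw1 : w ≤ 1 / 64)
    (hf : ∀ x : ℝ, (c : ℝ) ≤ x → x ≤ c + 1 → f x = T + (E - T) * ramp t (x - c) +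
      S * (tri w (x - c - 1 / 4) + tri w (x - c - 3 / 4))) :
    PFit f ((c, T) :: ([(c + t / 4, E)] ++ (tentPts (c + 1 / 4) E w S ++
      tentPts (c + 3 / 4) E w S) ++ [(c + 1 - t / 4, E), (c + 1, T)])) := by
  have t0 : (0 : ℝ) < t := by exact_mod_cast ht
  have t1 : (t : ℝ) ≤ 1 / 1024 := by
    have : ((t : ℚ) : ℝ) ≤ ((1 / 1024 : ℚ) : ℝ) := by exact_mod_cast ht1
    push_cast at this
    exact this
  have w0 : (0 : ℝ) < w := by exact_mod_cast hw
  have w1 : (w : ℝ) ≤ 1 / 64 := by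
    have : ((w : ℚ) : ℝ) ≤ ((1 / 64 : ℚ) : ℝ) := by exact_mod_cast hw1
    push_cast at this
    exact this
  have z1 : ∀ x : ℝ, x ≤ c + 1 / 4 - w ∨ (c + 1 / 4 + w ≤ x) → tri w (x - c - 1 / 4) = 0 := by
    intro x hx
    refine tri_zero w0 ?_
    rcases hx with h | h
    · rw [abs_of_nonpos (by linarith only [w0, h])]; linarith only [h]
    · rw [abs_of_nonneg (by linarith)]; linarith
  have z3 : ∀ x : ℝ, x ≤ c + 3 / 4 - w ∨ (c + 3 / 4 + w ≤ x) → tri w (x - c - 3 / 4) = 0 := by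
    intro x hx
    refine tri_zero w0 ?_
    rcases hx with h | h
    · rw [abs_of_nonpos (by linarith)]; linarith
    · rw [abs_of_nonneg (by linarith only [w0, h])]; linarith
  have hm : ∀ x : ℝ, (c : ℝ) + t / 4 ≤ x → x ≤ c + 1 - t / 4 → f x = E +
      S * (tri w (x - c - 1 / 4) + tri w (x - c - 3 / 4)) := by
    intro x h1 h2
    rw [hf x (by linarith only [t0, h1]) (by linarith only [t0, h2]), ramp_mid t0 (by linarith) (by linarith only [h2])]
    ring
  unfold tentPts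
  simp only [List.cons_append, List.nil_append, PFit]
  push_cast
  refine ⟨?_, ?_, ?_, ?_, ?_, ?_, ?_, ?_, ?_, ?_⟩
  · refine aff_ramp_left t0 (by linarith only [t1]) fun x h1 h2 => ?_
    rw [hf x h1 (by linarith), z1 x (Or.inl (by linarith)), z3 x (Or.inl (by linarith))]
    ring
  · refine aff_const (by linarith) rfl fun x h1 h2 => ?_
    rw [hm x h1 (by linarith), z1 x (Or.inl h2), z3 x (Or.inl (by linarith only [h2]))]
    ring
  · refine aff_tent_left w0 fun x h1 h2 => ?_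
    rw [hm x (by linarith only [t1, w1, h1]) (by linarith), z3 x (Or.inl (by linarith)),
      show x - c - 1 / 4 = x - (c + 1 / 4) by ring]
    ring
  · refine aff_tent_right w0 fun x h1 h2 => ?_
    rw [hm x (by linarith only [t1, h1]) (by linarith), z3 x (Or.inl (by linarith only [w1, h2])),
      show x - c - 1 / 4 = x - (c + 1 / 4) by ring]
    ring
  · refine aff_const (by linarith) rfl fun x h1 h2 => ?_
    rw [hm x (by linarith) (by linarith only [t1, w0, h2]), z1 x (Or.inr h1), z3 x (Or.inl h2)]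
    ring
  · refine aff_tent_left w0 fun x h1 h2 => ?_
    rw [hm x (by linarith) (by linarith), z1 x (Or.inr (by linarith)),
      show x - c - 3 / 4 = x - (c + 3 / 4) by ring]
    ring
  · refine aff_tent_right w0 fun x h1 h2 => ?_
    rw [hm x (by linarith) (by linarith), z1 x (Or.inr (by linarith)),
      show x - c - 3 / 4 = x - (c + 3 / 4) by ring]
    ring
  · refine aff_const (by linarith) rfl fun x h1 h2 => ?_
    rw [hm x (by linarith only [t1, w0, h1]) h2, z1 x (Or.inr (by linarith)), z3 x (Or.inr h1)]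
    ring
  · refine aff_ramp_right t0 (by linarith) fun x h1 h2 => ?_
    rw [hf x (by linarith) h2, z1 x (Or.inr (by linarith)), z3 x (Or.inr (by linarith))]
    ring
  · rw [hf _ (by linarith) le_rfl, z1 _ (Or.inr (by linarith)), z3 _ (Or.inr (by linarith)),
      ramp_right t0 (by linarith) (by linarith)]
    ring

/-- the ceiling of a column which is not a port, without tents -/
theorem fit_flat {f : ℝ → ℝ} {t c T E : ℚ} (ht : 0 < t) (ht1 : t ≤ 1 / 1024)
    (hf : ∀ x : ℝ, (c : ℝ) ≤ x → x ≤ c + 1 → f x = T + (E - T) * ramp t (x - c)) :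
    PFit f ((c, T) :: ([(c + t / 4, E)] ++ [] ++ [(c + 1 - t / 4, E), (c + 1, T)])) := by
  have t0 : (0 : ℝ) < t := by exact_mod_cast ht
  have t1 : (t : ℝ) ≤ 1 / 1024 := by
    have : ((t : ℚ) : ℝ) ≤ ((1 / 1024 : ℚ) : ℝ) := by exact_mod_cast ht1
    push_cast at this
    exact this
  simp only [List.cons_append, List.nil_append, PFit]
  push_cast
  refine ⟨?_, ?_, ?_, ?_⟩
  · exact aff_ramp_left t0 (by linarith only [t1]) fun x h1 h2 => hf x h1 (by linarith)
  · refine aff_const (by linarith) rfl fun x h1 h2 => ?_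
    rw [hf x (by linarith) (by linarith), ramp_mid t0 (by linarith only [h1]) (by linarith)]
    ring
  · exact aff_ramp_right t0 (by linarith) fun x h1 h2 => hf x (by linarith) h2
  · rw [hf _ (by linarith) le_rfl, ramp_right t0 (by linarith) (by linarith)]
    ring

/-- the low part of the ceiling of a left port -/
theorem fit_portL {f : ℝ → ℝ} {t c T e D : ℚ} (ht : 0 < t) (ht1 : t ≤ 1 / 1024)
    (he : 14 / 32 ≤ e) (he1 : e ≤ 18 / 32)
    (hf : ∀ x : ℝ, (c : ℝ) ≤ x → x ≤ c + e - t / 4 → f x = T + t ^ 4 * ramp t (x - c) +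
      D * tri (1 / 64) (x - c - 1 / 4)) :
    PFit f ((c, T) :: ([(c + t / 4, T + t ^ 4)] ++ tentPts (c + 1 / 4) (T + t ^ 4) (1 / 64) D ++
      [(c + e - t / 4, T + t ^ 4)])) := by
  have t0 : (0 : ℝ) < t := by exact_mod_cast ht
  have t1 : (t : ℝ) ≤ 1 / 1024 := by
    have : ((t : ℚ) : ℝ) ≤ ((1 / 1024 : ℚ) : ℝ) := by exact_mod_cast ht1
    push_cast at this
    exact this
  have e0 : (14 / 32 : ℝ) ≤ e := by
    have : ((14 / 32 : ℚ) : ℝ) ≤ ((e : ℚ) : ℝ) := by exact_mod_cast he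
    push_cast at this
    exact this
  have e1 : (e : ℝ) ≤ 18 / 32 := by
    have : ((e : ℚ) : ℝ) ≤ ((18 / 32 : ℚ) : ℝ) := by exact_mod_cast he1
    push_cast at this
    exact this
  have z1 : ∀ x : ℝ, x ≤ c + 1 / 4 - 1 / 64 ∨ (c + 1 / 4 + 1 / 64 ≤ x) →
      tri (1 / 64) (x - c - 1 / 4) = 0 := by
    intro x hx
    refine tri_zero (by norm_num) ?_
    rcases hx with h | h
    · rw [abs_of_nonpos (by linarith)]; linarith only [h]
    · rw [abs_of_nonneg (by linarith only [h])]; linarith only [h]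
  have hm : ∀ x : ℝ, (c : ℝ) + t / 4 ≤ x → x ≤ c + e - t / 4 → f x = T + t ^ 4 +
      D * tri (1 / 64) (x - c - 1 / 4) := by
    intro x h1 h2
    rw [hf x (by linarith only [t0, h1]) h2, ramp_mid t0 (by linarith only [h1]) (by linarith only [e1, h2])]
    ring
  unfold tentPts
  simp only [List.cons_append, List.nil_append, PFit]
  push_cast
  refine ⟨?_, ?_, ?_, ?_, ?_, ?_⟩
  · refine aff_ramp_left t0 (by linarith only [t1]) fun x h1 h2 => ?_
    rw [hf x h1 (by linarith), z1 x (Or.inl (by linarith only [t1, h2]))]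
    ring
  · refine aff_const (by linarith only [t1]) rfl fun x h1 h2 => ?_
    rw [hm x h1 (by linarith only [t1, e0, h2]), z1 x (Or.inl h2)]
    ring
  · refine aff_tent_left (by norm_num) fun x h1 h2 => ?_
    rw [hm x (by linarith only [t1, h1]) (by linarith), show x - c - 1 / 4 = x - (c + 1 / 4) by ring]
  · refine aff_tent_right (by norm_num) fun x h1 h2 => ?_
    rw [hm x (by linarith only [t1, h1]) (by linarith), show x - c - 1 / 4 = x - (c + 1 / 4) by ring]
  · refine aff_const (by linarith only [t1, e0]) rfl fun x h1 h2 => ?_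
    rw [hm x (by linarith) h2, z1 x (Or.inr h1)]
    ring
  · rw [hm _ (by linarith only [t1, e0]) le_rfl, z1 _ (Or.inr (by linarith only [t1, e0]))]
    ring

/-- the low part of the ceiling of a right port -/
theorem fit_portR {f : ℝ → ℝ} {t c T e D : ℚ} (ht : 0 < t) (ht1 : t ≤ 1 / 1024)
    (he : 14 / 32 ≤ e) (he1 : e ≤ 18 / 32)
    (hf : ∀ x : ℝ, (c : ℝ) + e + t / 4 ≤ x → x ≤ c + 1 → f x = T + t ^ 4 * ramp t (x - c) +
      D * tri (1 / 64) (x - c - 3 / 4)) :
    PFit f ((c + e + t / 4, T + t ^ 4) :: (tentPts (c + 3 / 4) (T + t ^ 4) (1 / 64) D ++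
      [(c + 1 - t / 4, T + t ^ 4), (c + 1, T)])) := by
  have t0 : (0 : ℝ) < t := by exact_mod_cast ht
  have t1 : (t : ℝ) ≤ 1 / 1024 := by
    have : ((t : ℚ) : ℝ) ≤ ((1 / 1024 : ℚ) : ℝ) := by exact_mod_cast ht1
    push_cast at this
    exact this
  have e0 : (14 / 32 : ℝ) ≤ e := by
    have : ((14 / 32 : ℚ) : ℝ) ≤ ((e : ℚ) : ℝ) := by exact_mod_cast he
    push_cast at this
    exact this
  have e1 : (e : ℝ) ≤ 18 / 32 := by
    have : ((e : ℚ) : ℝ) ≤ ((18 / 32 : ℚ) : ℝ) := by exact_mod_cast he1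
    push_cast at this
    exact this
  have z1 : ∀ x : ℝ, x ≤ c + 3 / 4 - 1 / 64 ∨ (c + 3 / 4 + 1 / 64 ≤ x) →
      tri (1 / 64) (x - c - 3 / 4) = 0 := by
    intro x hx
    refine tri_zero (by norm_num) ?_
    rcases hx with h | h
    · rw [abs_of_nonpos (by linarith only [h])]; linarith only [h]
    · rw [abs_of_nonneg (by linarith only [h])]; linarith only [h]
  have hm : ∀ x : ℝ, (c : ℝ) + e + t / 4 ≤ x → x ≤ c + 1 - t / 4 → f x = T + t ^ 4 +
      D * tri (1 / 64) (x - c - 3 / 4) := by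
    intro x h1 h2
    rw [hf x h1 (by linarith only [t0, h2]), ramp_mid t0 (by linarith only [e0, h1]) (by linarith only [h2])]
    ring
  unfold tentPts
  simp only [List.cons_append, List.nil_append, PFit]
  push_cast
  refine ⟨?_, ?_, ?_, ?_, ?_, ?_⟩
  · refine aff_const (by linarith only [t1, e1]) rfl fun x h1 h2 => ?_
    rw [hm x h1 (by linarith only [t1, h2]), z1 x (Or.inl h2)]
    ring
  · refine aff_tent_left (by norm_num) fun x h1 h2 => ?_
    rw [hm x (by linarith only [t1, e1, h1]) (by linarith only [t1, h2]), show x - c - 3 / 4 = x - (c + 3 / 4) by ring]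
  · refine aff_tent_right (by norm_num) fun x h1 h2 => ?_
    rw [hm x (by linarith) (by linarith only [t1, h2]), show x - c - 3 / 4 = x - (c + 3 / 4) by ring]
  · refine aff_const (by linarith) rfl fun x h1 h2 => ?_
    rw [hm x (by linarith) h2, z1 x (Or.inr h1)]
    ring
  · refine aff_ramp_right t0 (by linarith only [t1]) fun x h1 h2 => ?_
    rw [hf x (by linarith only [t1, e1, h1]) h2, z1 x (Or.inr (by linarith))]
    ring
  · rw [hf _ (by linarith) le_rfl, z1 _ (Or.inr (by linarith)),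
      ramp_right t0 (by linarith only [t1]) (by linarith only [t0])]
    ring

/-- the high part of the ceiling of a left port -/
theorem fit_spikeL {f : ℝ → ℝ} {c x₀ P H w : ℚ} (hw : 0 < w) (hx : x₀ < c + 1 - w) (hP : P ≤ H)
    (hf : ∀ x : ℝ, (x₀ : ℝ) ≤ x → x ≤ c + 1 → f x = min (H : ℝ) (P + (H - P) *
      ((1 - (x - c)) / w))) :
    PFit f [(x₀, H), (c + 1 - w, H), (c + 1, P)] := by
  have w0 : (0 : ℝ) < w := by exact_mod_cast hw
  have hx' : (x₀ : ℝ) < c + 1 - w := by exact_mod_cast hx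
  have hP' : (P : ℝ) ≤ H := by exact_mod_cast hP
  simp only [PFit]
  push_cast
  refine ⟨?_, ?_, ?_⟩
  · refine aff_const hx' rfl fun x h1 h2 => ?_
    rw [hf x h1 (by linarith), min_eq_left]
    have : 1 ≤ (1 - (x - c)) / w := by rw [le_div_iff₀ w0]; linarith
    nlinarith only [hP', this]
  · refine ⟨by linarith, -((H - P) / w), ?_, fun x h1 h2 => ?_⟩
    · field_simp
      ring
    · rw [hf x (by linarith) h2, min_eq_right]
      · field_simp
        ring
      · have : (1 - (x - c)) / w ≤ 1 := by rw [div_le_iff₀ w0]; linarith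
        nlinarith only [hP', this]
  · rw [hf _ (by linarith) le_rfl, min_eq_right]
    · have e : (1 - ((c : ℝ) + 1 - c)) / w = 0 := by
        rw [show (1 - ((c : ℝ) + 1 - c)) = 0 by ring, zero_div]
      rw [e]
      ring
    · have e : (1 - ((c : ℝ) + 1 - c)) / w = 0 := by
        rw [show (1 - ((c : ℝ) + 1 - c)) = 0 by ring, zero_div]
      rw [e]
      linarith

/-- the high part of the ceiling of a right port -/
theorem fit_spikeR {f : ℝ → ℝ} {c x₀ P H w : ℚ} (hw : 0 < w) (hx : c + w < x₀) (hP : P ≤ H)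
    (hf : ∀ x : ℝ, (c : ℝ) ≤ x → x ≤ x₀ → f x = min (H : ℝ) (P + (H - P) * ((x - c) / w))) :
    PFit f [(c, P), (c + w, H), (x₀, H)] := by
  have w0 : (0 : ℝ) < w := by exact_mod_cast hw
  have hx' : (c : ℝ) + w < x₀ := by exact_mod_cast hx
  have hP' : (P : ℝ) ≤ H := by exact_mod_cast hP
  simp only [PFit]
  push_cast
  refine ⟨?_, ?_, ?_⟩
  · refine ⟨by linarith, (H - P) / w, ?_, fun x h1 h2 => ?_⟩
    · field_simp
      ring
    · rw [hf x h1 (by linarith), min_eq_right]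
      · field_simp
      · have : (x - c) / w ≤ 1 := by rw [div_le_iff₀ w0]; linarith
        nlinarith only [hP', this]
  · refine aff_const hx' rfl fun x h1 h2 => ?_
    rw [hf x (by linarith) h2, min_eq_left]
    have : 1 ≤ (x - c) / w := by rw [le_div_iff₀ w0]; linarith
    nlinarith only [hP', this]
  · rw [hf _ (by linarith) le_rfl, min_eq_left]
    have : 1 ≤ ((x₀ : ℝ) - c) / w := by rw [le_div_iff₀ w0]; linarith
    nlinarith

/-! ### Joining -/

/-- `L` is a ceiling with the function `F` between `a` and `b` -/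
structure Ceil (L : Polygon) (F : ℝ → ℝ) (a b : ℝ) : Prop where
  weak : WeakX L
  le : ∀ z ∈ pathSet L, z.im ≤ F z.re
  cmp : ∀ z : ℂ, a ≤ z.re → z.re < b → z ∉ pathSet L → (z.im < chainVal L z.re ↔ z.im ≤ F z.re)
  mem : ∀ z : ℂ, a ≤ z.re → z.re ≤ b → z.im = F z.re → z ∈ pathSet L

theorem ceil_fit {L : Polygon} {F : ℝ → ℝ} {A B : ℚ × ℚ} (h : PFit F L) (hA : L.head? = some A)
    (hB : L.getLast? = some B) : Ceil L F A.1 B.1 := by
  refine ⟨h.weakX, fun z hz => ?_, fun z h1 h2 h3 => ?_, fun z h1 h2 h3 => ?_⟩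
  · exact ((h.mem_pathSet hA hB z).1 hz).2.2.le
  · rw [h.chainVal_eq hA hB z.re h1 h2.le]
    rw [h.mem_pathSet hA hB z] at h3
    constructor
    · exact le_of_lt
    · intro h4
      exact lt_of_le_of_ne h4 fun h5 => h3 ⟨h1, h2.le, h5⟩
  · exact (h.mem_pathSet hA hB z).2 ⟨h1, h2, h3⟩

theorem mem_join {L L' : Polygon} {f g : ℝ → ℝ} {A B v w : ℚ × ℚ} (h : PFit f L) (h' : PFit g L')
    (hA : L.head? = some A) (hv : L.getLast? = some v) (hw : L'.head? = some w)
    (hB : L'.getLast? = some B) (hvw : v.1 = w.1) (z : ℂ) : z ∈ pathSet (L ++ L') ↔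
      ((A.1 : ℝ) ≤ z.re ∧ z.re ≤ v.1 ∧ z.im = f z.re) ∨
      (z.re = v.1 ∧ min (v.2 : ℝ) w.2 ≤ z.im ∧ z.im ≤ max (v.2 : ℝ) w.2) ∨
      ((v.1 : ℝ) ≤ z.re ∧ z.re ≤ B.1 ∧ z.im = g z.re) := by
  rw [pathSet_append hv hw, h.mem_pathSet hA hv, mem_vert hvw, h'.mem_pathSet hw hB, hvw]

theorem weak_join {L L' : Polygon} {f g : ℝ → ℝ} {v w : ℚ × ℚ} (h : PFit f L) (h' : PFit g L')
    (hv : L.getLast? = some v) (hw : L'.head? = some w) (hvw : v.1 = w.1) (hne : v.2 ≠ w.2) :
    WeakX (L ++ L') := by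
  cases L' with
  | nil => exact h'.elim
  | cons a L' =>
    have e : a = w := by simpa using hw
    subst e
    exact h.weakX_append hv hvw.le (fun e => hne (by rw [e])) h'.head_lt h'.weakX

theorem PFit.last_val : ∀ {f : ℝ → ℝ} {L : Polygon} {v : ℚ × ℚ}, PFit f L →
    L.getLast? = some v → f v.1 = v.2
  | f, [], v, h, _ => h.elim
  | f, [p], v, h, hv => by
    have h1 : p = v := by simpa using hv
    rw [← h1]
    exact h
  | f, p :: r :: L, v, h, hv => PFit.last_val h.2 (by simpa using hv)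

theorem PFit.head_val {f : ℝ → ℝ} {L : Polygon} {v : ℚ × ℚ} (h : PFit f L)
    (hv : L.head? = some v) : f v.1 = v.2 := by
  match L, h, hv with
  | [], h, _ => exact h.elim
  | [p], h, hv =>
    have h1 : p = v := by simpa using hv
    rw [← h1]
    exact h
  | p :: r :: L, h, hv =>
    have h1 : p = v := by simpa using hv
    rw [← h1]
    exact h.1.left

theorem ceil_up {L L' : Polygon} {f g F : ℝ → ℝ} {A B v w : ℚ × ℚ} (h : PFit f L) (h' : PFit g L')
    (hA : L.head? = some A) (hv : L.getLast? = some v) (hw : L'.head? = some w)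
    (hB : L'.getLast? = some B) (hvw : v.1 = w.1) (hlt : v.2 < w.2)
    (hF1 : ∀ x : ℝ, (A.1 : ℝ) ≤ x → x < v.1 → F x = f x)
    (hF2 : ∀ x : ℝ, (v.1 : ℝ) ≤ x → x ≤ B.1 → F x = g x) : Ceil (L ++ L') F A.1 B.1 := by
  have hm := mem_join h h' hA hv hw hB hvw
  have hltR : (v.2 : ℝ) < w.2 := by exact_mod_cast hlt
  have hAv : (A.1 : ℝ) ≤ v.1 := by exact_mod_cast h.le hA hv
  have hvB : (v.1 : ℝ) ≤ B.1 := by rw [hvw]; exact_mod_cast h'.le hw hB
  have fv : f v.1 = v.2 := h.last_val hv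
  have gv : g v.1 = w.2 := by rw [hvw]; exact h'.head_val hw
  have Fv : F v.1 = w.2 := by rw [hF2 _ le_rfl hvB, gv]
  rw [min_eq_left hltR.le, max_eq_right hltR.le] at hm
  refine ⟨weak_join h h' hv hw hvw hlt.ne, fun z hz => ?_, fun z h1 h2 h3 => ?_,
    fun z h1 h2 h3 => ?_⟩
  · rcases (hm z).1 hz with ⟨a, b, c⟩ | ⟨a, b, c⟩ | ⟨a, b, c⟩
    · rcases b.lt_or_eq with b | b
      · rw [hF1 _ a b, c]
      · rw [b, Fv, c, b, fv]
        exact hltR.le
    · rw [a, Fv]
      exact c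
    · rw [hF2 _ a b, c]
  · rw [hm] at h3
    rcases lt_trichotomy z.re v.1 with h4 | h4 | h4
    · rw [chainVal_append_left hv hw hvw _ h4.le, h.chainVal_eq hA hv _ h1 h4.le, hF1 _ h1 h4]
      constructor
      · exact le_of_lt
      · intro h5
        exact lt_of_le_of_ne h5 fun h6 => h3 (Or.inl ⟨h1, h4.le, h6⟩)
    · rw [h4, chainVal_append_left hv hw hvw _ le_rfl, h.chainVal_eq hA hv _ hAv le_rfl, fv, Fv]
      constructor
      · intro h5
        exact h5.le.trans hltR.le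
      · intro h5
        by_contra h6
        exact h3 (Or.inr (Or.inl ⟨h4, not_lt.1 h6, h5⟩))
    · rw [h.chainVal_append_right hv hw hvw _ h4, h'.chainVal_eq hw hB _ (by
        rw [← hvw]; exact h4.le) h2.le, hF2 _ h4.le h2.le]
      constructor
      · exact le_of_lt
      · intro h5
        exact lt_of_le_of_ne h5 fun h6 => h3 (Or.inr (Or.inr ⟨h4.le, h2.le, h6⟩))
  · rw [hm]
    rcases lt_or_ge z.re v.1 with h4 | h4
    · exact Or.inl ⟨h1, h4.le, by rw [h3, hF1 _ h1 h4]⟩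
    · exact Or.inr (Or.inr ⟨h4, h2, by rw [h3, hF2 _ h4 h2]⟩)

theorem ceil_down {L L' : Polygon} {f g F : ℝ → ℝ} {A B v w : ℚ × ℚ} (h : PFit f L)
    (h' : PFit g L')
    (hA : L.head? = some A) (hv : L.getLast? = some v) (hw : L'.head? = some w)
    (hB : L'.getLast? = some B) (hvw : v.1 = w.1) (hlt : w.2 < v.2)
    (hF1 : ∀ x : ℝ, (A.1 : ℝ) ≤ x → x ≤ v.1 → F x = f x)
    (hF2 : ∀ x : ℝ, (v.1 : ℝ) < x → x ≤ B.1 → F x = g x) : Ceil (L ++ L') F A.1 B.1 := by
  have hm := mem_join h h' hA hv hw hB hvw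
  have hltR : (w.2 : ℝ) < v.2 := by exact_mod_cast hlt
  have hAv : (A.1 : ℝ) ≤ v.1 := by exact_mod_cast h.le hA hv
  have fv : f v.1 = v.2 := h.last_val hv
  have gv : g v.1 = w.2 := by rw [hvw]; exact h'.head_val hw
  have Fv : F v.1 = v.2 := by rw [hF1 _ hAv le_rfl, fv]
  rw [min_eq_right hltR.le, max_eq_left hltR.le] at hm
  refine ⟨weak_join h h' hv hw hvw hlt.ne', fun z hz => ?_, fun z h1 h2 h3 => ?_,
    fun z h1 h2 h3 => ?_⟩
  · rcases (hm z).1 hz with ⟨a, b, c⟩ | ⟨a, b, c⟩ | ⟨a, b, c⟩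
    · rw [hF1 _ a b, c]
    · rw [a, Fv]
      exact c
    · rcases a.lt_or_eq with a | a
      · rw [hF2 _ a b, c]
      · rw [← a, Fv, c, ← a, gv]
        exact hltR.le
  · rw [hm] at h3
    rcases le_or_gt z.re v.1 with h4 | h4
    · rw [chainVal_append_left hv hw hvw _ h4, h.chainVal_eq hA hv _ h1 h4, hF1 _ h1 h4]
      constructor
      · exact le_of_lt
      · intro h5
        exact lt_of_le_of_ne h5 fun h6 => h3 (Or.inl ⟨h1, h4, h6⟩)
    · rw [h.chainVal_append_right hv hw hvw _ h4, h'.chainVal_eq hw hB _ (by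
        rw [← hvw]; exact h4.le) h2.le, hF2 _ h4 h2.le]
      constructor
      · exact le_of_lt
      · intro h5
        exact lt_of_le_of_ne h5 fun h6 => h3 (Or.inr (Or.inr ⟨h4.le, h2.le, h6⟩))
  · rw [hm]
    rcases le_or_gt z.re v.1 with h4 | h4
    · exact Or.inl ⟨h1, h4, by rw [h3, hF1 _ h1 h4]⟩
    · exact Or.inr (Or.inr ⟨h4.le, h2, by rw [h3, hF2 _ h4 h2]⟩)

/-! ### The theorem -/

theorem cePts_other {G : Lay} {t : ℚ} {c : ℕ} (hL : (G.kd c).isL = false)
    (hR : (G.kd c).isR = false) : G.cePts t c = [(c + t / 4, G.ce t c)] ++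
      (if (G.kd c).isW then tentPts (c + 1 / 4) (G.ce t c) (t ^ 3) (-t ^ 3) ++
          tentPts (c + 3 / 4) (G.ce t c) (t ^ 3) (-t ^ 3)
        else if G.spc c (G.top c - 1) then []
        else tentPts (c + 1 / 4) (G.ce t c) (1 / 64) (2 * t ^ 3) ++
          tentPts (c + 3 / 4) (G.ce t c) (1 / 64) (2 * t ^ 3)) ++
      [(c + 1 - t / 4, G.ce t c), (c + 1, (G.top c : ℚ))] := by
  unfold Lay.cePts
  split
  · rename_i σ h
    rw [h] at hL
    simp [Kind.isL] at hL
  · rename_i σ h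
    rw [h] at hR
    simp [Kind.isR] at hR
  · rfl

/-- the conclusions for one column -/
def Concl (t : ℚ) (G : Lay) (c : ℕ) : Prop :=
  WeakX (G.ceilP t c) ∧ 2 ≤ (G.ceilP t c).length ∧
  (G.ceilP t c).getLast? = some ((c : ℚ) + 1, G.J' t c) ∧
  (∀ z ∈ pathSet (G.ceilP t c), z.im ≤ G.locCe t c (z.re - c) ∧
    G.N + ((G.kd c).h : ℝ) - 1 / 64 ≤ z.im ∧ z.im ≤ G.N + ((G.kd c).h : ℝ) + 5 / 4) ∧
  (∀ z : ℂ, (c : ℝ) ≤ z.re → z.re < c + 1 → z ∉ pathSet (G.ceilP t c) →
    (z.im < chainVal (G.ceilP t c) z.re ↔ z.im ≤ G.locCe t c (z.re - c))) ∧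
  (∀ z : ℂ, (c : ℝ) ≤ z.re → z.re ≤ c + 1 → z.im = G.locCe t c (z.re - c) →
    z ∈ pathSet (G.ceilP t c)) ∧
  (∀ z ∈ pathSet (G.ceilP t c), (z.re ≤ c + (t : ℝ) / 8 ∧ (G.kd c).isR = false) ∨
    (c + 1 - (t : ℝ) / 8 ≤ z.re ∧ (G.kd c).isL = false) →
    |z.im - (G.N + ((G.kd c).h : ℝ))| ≤ (t : ℝ) / 64)

theorem tiny {t : ℝ} (h0 : 0 < t) (h1 : t ≤ 1 / 2 ^ 60) : 0 < t ^ 4 ∧ 0 < t ^ 3 ∧ t ^ 4 ≤ t ^ 3 ∧
    t ^ 3 ≤ t / 1024 ∧ 0 < t ^ 7 ∧ t ^ 7 ≤ t / 1024 ∧ t ≤ 1 / 1024 := by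
  have h2 : t ≤ 1 / 1024 := h1.trans (by norm_num)
  have h3 : 0 < t ^ 2 := by positivity
  have h4 : t ^ 2 ≤ 1 / 1024 := by nlinarith only [h0, h1]
  have h5 : t ^ 3 = t * t ^ 2 := by ring
  have h6 : t ^ 4 = t ^ 3 * t := by ring
  have h7 : 0 < t ^ 3 := by positivity
  have h8 : t ^ 3 ≤ t / 1024 := by
    rw [h5]
    have := mul_le_mul_of_nonneg_left h4 h0.le
    linarith
  have h9 : t ^ 4 ≤ t ^ 3 := by
    rw [h6]
    have := mul_le_mul_of_nonneg_left (show t ≤ 1 by linarith only [h1]) h7.le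
    linarith only [this]
  have h10 : t ^ 7 ≤ t ^ 3 := pow_le_pow_of_le_one h0.le (by linarith only [h1]) (by norm_num)
  exact ⟨by positivity, h7, h9, h8, by positivity, h10.trans h8, h2⟩

/-- columns which are not ports -/
theorem concl_other {t : ℚ} {G : Lay} {c : ℕ} (ht : 0 < t) (ht1 : (t : ℝ) ≤ 1 / 2 ^ 60)
    (hc : c < G.M) (hce : |G.ce (t : ℝ) c - G.top c| ≤ (t : ℝ) / 64) (hL : (G.kd c).isL = false)
    (hR : (G.kd c).isR = false) : Concl t G c := by
  have t0 : (0 : ℝ) < t := by exact_mod_cast ht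
  obtain ⟨p4, p3, p43, p31, p7, p71, q1⟩ := tiny t0 ht1
  have tq : t ≤ 1 / 1024 := by
    have h : (t : ℝ) ≤ ((1 / 1024 : ℚ) : ℝ) := by push_cast; exact q1
    exact_mod_cast h
  have hJ : G.J t c = G.top c := by
    unfold Lay.J Lay.topR
    simp [hc, hR]
  have hJ' : G.J' t c = G.top c := by
    unfold Lay.J'
    simp [hL]
  have htop : (G.top c : ℝ) = G.N + ((G.kd c).h : ℝ) := by
    unfold Lay.top
    push_cast
    rfl
  have hloc : ∀ x, G.locCe (t : ℝ) c x = G.top c + (G.ce (t : ℝ) c - G.top c) * ramp t x +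
      (if (G.kd c).isW then -(bump t (x - 1 / 4) + bump t (x - 3 / 4))
      else if G.spc c (G.top c - 1) then 0 else dent t (x - 1 / 4) + dent t (x - 3 / 4)) := by
    intro x
    unfold Lay.locCe
    simp [hL, hR]
  have hfit : PFit (fun x => G.locCe (t : ℝ) c (x - c)) (G.ceilP t c) := by
    unfold Lay.ceilP
    rw [hJ, cePts_other hL hR]
    rcases hW : (G.kd c).isW with _ | _
    · rcases hS : G.spc c (G.top c - 1) with _ | _
      · simp only [Bool.false_eq_true, if_false]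
        refine fit_tents (c := (c : ℚ)) ht tq (by norm_num) (by norm_num) fun x h1 h2 => ?_
        push_cast [G.cast_ce]
        rw [hloc, hW, hS]
        simp only [Bool.false_eq_true, if_false]
        rw [dent_eq t0.le, dent_eq t0.le]
        ring
      · simp only [Bool.false_eq_true, if_false, if_true]
        refine fit_flat (c := (c : ℚ)) ht tq fun x h1 h2 => ?_
        push_cast [G.cast_ce]
        rw [hloc, hW, hS]
        simp
    · simp only [if_true]
      refine fit_tents (c := (c : ℚ)) ht tq (by positivity) ?_ fun x h1 h2 => ?_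
      · have h : ((t ^ 3 : ℚ) : ℝ) ≤ ((1 / 64 : ℚ) : ℝ) := by
          push_cast
          linarith only [ht1, p31]
        exact_mod_cast h
      push_cast [G.cast_ce]
      rw [hloc, hW]
      simp only [if_true]
      rw [bump_eq t0, bump_eq t0]
      ring
  have hlast : (G.ceilP t c).getLast? = some ((c : ℚ) + 1, G.J' t c) := by
    unfold Lay.ceilP
    rw [cePts_other hL hR, hJ']
    simp [List.getLast?_cons, List.getLast?_append]
  have hlen : 2 ≤ (G.ceilP t c).length := by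
    unfold Lay.ceilP
    rw [cePts_other hL hR]
    simp
  have hhead : (G.ceilP t c).head? = some ((c : ℚ), G.J t c) := rfl
  have C := ceil_fit hfit hhead hlast
  push_cast at C
  have hdev : ∀ x, 0 ≤ x → x ≤ 1 → |G.locCe (t : ℝ) c x - (G.top c + (G.ce (t : ℝ) c - G.top c) *
      ramp t x)| ≤ 4 * (t : ℝ) ^ 3 := by
    intro x h1 h2
    rw [hloc, add_sub_cancel_left]
    have b : ∀ e, 0 ≤ bump t e ∧ bump t e ≤ (t : ℝ) ^ 3 := by
      intro e
      rw [bump_eq t0]
      have h3 := tri_nonneg ((t : ℝ) ^ 3) e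
      have h4 := tri_le (w := (t : ℝ) ^ 3) p3 e
      constructor
      · positivity
      · nlinarith only [t0, p4, h4]
    have d : ∀ e, 0 ≤ dent t e ∧ dent t e ≤ 2 * (t : ℝ) ^ 3 := by
      intro e
      rw [dent_eq t0.le]
      have h3 := tri_nonneg (1 / 64) e
      have h4 := tri_le (w := 1 / 64) (by norm_num) e
      constructor
      · positivity
      · nlinarith only [t0, p4, h4]
    have b1 := b (x - 1 / 4)
    have b2 := b (x - 3 / 4)
    have d1 := d (x - 1 / 4)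
    have d2 := d (x - 3 / 4)
    split_ifs
    · rw [abs_le]; constructor <;> linarith only [b1, b2]
    · rw [abs_zero]; positivity
    · rw [abs_le]; constructor <;> linarith only [d1, d2]
  have hgraph := hfit.mem_pathSet hhead hlast
  push_cast at hgraph
  refine ⟨C.weak, hlen, hlast, fun z hz => ?_, C.cmp, C.mem, fun z hz hcase => ?_⟩
  · obtain ⟨h1, h2, h3⟩ := (hgraph z).1 hz
    have h4 := hdev (z.re - c) (by linarith only [h1]) (by linarith only [h2])
    rw [← h3] at h4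
    have r0 := ramp_nonneg t0 (show 0 ≤ z.re - c by linarith only [h1]) (by linarith only [h2])
    have r1 := ramp_le t (z.re - c)
    rw [abs_le] at h4 hce
    rw [← htop]
    refine ⟨h3.le, ?_, ?_⟩
    · nlinarith only [ht1, p31, h4, r1, r0, hce]
    · nlinarith only [ht1, hce, p31, h4, r0, r1]
  · obtain ⟨h1, h2, h3⟩ := (hgraph z).1 hz
    have h4 := hdev (z.re - c) (by linarith only [h1]) (by linarith only [h2])
    rw [← h3] at h4
    have r0 := ramp_nonneg t0 (show 0 ≤ z.re - c by linarith only [h1]) (by linarith only [h2])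
    have r1 : ramp t (z.re - c) ≤ 1 / 2 := by
      rcases hcase with ⟨h5, -⟩ | ⟨h5, -⟩
      · rw [ramp_left t0 (by linarith only [ht1]) (by linarith), div_le_iff₀ t0]
        linarith only [h5]
      · rw [ramp_right t0 (by linarith only [ht1]) (by linarith only [p3, p31, h5]), div_le_iff₀ t0]
        linarith only [h5]
    rw [abs_le] at h4 hce
    rw [← htop, abs_le]
    constructor
    · nlinarith only [hce, p31, h4, r0, r1]
    · nlinarith only [hce, p31, h4, r1, r0]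

/-- left ports -/
theorem concl_pL {t : ℚ} {G : Lay} {c : ℕ} {σ : Bool} (ht : 0 < t) (ht1 : (t : ℝ) ≤ 1 / 2 ^ 60)
    (hc : c < G.M) (hk : G.kd c = .pL σ) : Concl t G c := by
  have t0 : (0 : ℝ) < t := by exact_mod_cast ht
  obtain ⟨p4, p3, p43, p31, p7, p71, q1⟩ := tiny t0 ht1
  have tq : t ≤ 1 / 1024 := by
    have h : (t : ℝ) ≤ ((1 / 1024 : ℚ) : ℝ) := by push_cast; exact q1
    exact_mod_cast h
  have hh0 : (G.kd c).h = 0 := by rw [hk]; rfl
  have hiL : (G.kd c).isL = true := by rw [hk]; rfl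
  have hiR : (G.kd c).isR = false := by rw [hk]; rfl
  have hsig : (G.kd c).sig = σ := by rw [hk]; rfl
  have htop : G.top c = G.N := by
    unfold Lay.top
    rw [hh0]
    rfl
  have hJ : G.J t c = G.N := by
    unfold Lay.J Lay.topR
    simp [hc, hiR, htop]
  have hJ' : G.J' t c = G.N + tipQ t σ := by
    unfold Lay.J'
    simp [hiL, hsig]
  have he : (14 / 32 : ℚ) ≤ eQ σ ∧ eQ σ ≤ 18 / 32 := by
    unfold eQ
    split <;> norm_num
  have heR : (14 / 32 : ℝ) ≤ eL σ ∧ eL σ ≤ 18 / 32 := by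
    unfold eL
    split <;> norm_num
  have htip : (0 : ℝ) < tipH t σ ∧ tipH t σ ≤ 2 * (t : ℝ) ^ 3 := by
    unfold tipH
    split <;> constructor <;> linarith only [p3]
  -- the two parts
  have hc1 : G.ceilP t c = ((c : ℚ), (G.N : ℚ)) :: ([(c + t / 4, G.N + t ^ 4)] ++
      tentPts (c + 1 / 4) (G.N + t ^ 4) (1 / 64) (2 * t ^ 3) ++
      [(c + eQ σ - t / 4, G.N + t ^ 4)]) ++
      [(c + eQ σ - t / 4, G.N + 1 + t / 4), (c + 1 - t ^ 7, G.N + 1 + t / 4),
        (c + 1, G.N + tipQ t σ)] := by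
    unfold Lay.ceilP Lay.cePts
    rw [hJ, hk]
    simp [tentPts]
  have hA := fit_portL (f := fun x => G.N + (t : ℝ) ^ 4 * ramp t (x - c) + dent t (x - c - 1 / 4))
    (c := (c : ℚ)) (T := (G.N : ℚ)) (D := 2 * t ^ 3) ht tq he.1 he.2 (fun x h1 h2 => by
      push_cast
      rw [dent_eq t0.le])
  have hB := fit_spikeL (f := fun x => min ((G.N : ℝ) + 1 + t / 4) (G.N + tipH t σ +
      (1 + t / 4 - tipH t σ) * ((1 - (x - c)) / t ^ 7))) (c := (c : ℚ))
      (x₀ := c + eQ σ - t / 4) (P := G.N + tipQ t σ) (H := G.N + 1 + t / 4) (w := t ^ 7)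
      (by positivity) (by
        have h : ((c + eQ σ - t / 4 : ℚ) : ℝ) < ((c + 1 - t ^ 7 : ℚ) : ℝ) := by
          push_cast [cast_eQ]
          linarith only [p3, p31, p71, heR.2]
        exact_mod_cast h) (by
        have h : ((G.N + tipQ t σ : ℚ) : ℝ) ≤ ((G.N + 1 + t / 4 : ℚ) : ℝ) := by
          push_cast [cast_tipQ]
          linarith only [p31, htip, htip.2]
        exact_mod_cast h) (fun x h1 h2 => by
      push_cast [cast_tipQ]
      congr 1
      ring)
  have hloc : ∀ x, G.locCe (t : ℝ) c x = if x < eL σ - t / 4 then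
      G.N + (t : ℝ) ^ 4 * ramp t x + dent t (x - 1 / 4) else min ((G.N : ℝ) + 1 + t / 4)
        (G.N + tipH t σ + (1 + t / 4 - tipH t σ) * ((1 - x) / t ^ 7)) := by
    intro x
    unfold Lay.locCe
    rw [if_pos hiL, hsig]
  have hlA : (((c : ℚ), (G.N : ℚ)) :: ([(c + t / 4, G.N + t ^ 4)] ++
      tentPts (c + 1 / 4) (G.N + t ^ 4) (1 / 64) (2 * t ^ 3) ++
      [(c + eQ σ - t / 4, G.N + t ^ 4)])).getLast? =
      some ((c + eQ σ - t / 4 : ℚ), (G.N + t ^ 4 : ℚ)) := by
    simp [List.getLast?_cons, tentPts]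
  have hltQ : (G.N + t ^ 4 : ℚ) < G.N + 1 + t / 4 := by
    have h : ((G.N + t ^ 4 : ℚ) : ℝ) < ((G.N + 1 + t / 4 : ℚ) : ℝ) := by
      push_cast
      linarith only [p3, p43, p31]
    exact_mod_cast h
  have hlB : [(c + eQ σ - t / 4, G.N + 1 + t / 4), (c + 1 - t ^ 7, G.N + 1 + t / 4),
      (c + 1, G.N + tipQ t σ)].getLast? = some ((c + 1 : ℚ), G.N + tipQ t σ) := rfl
  have C := ceil_up (F := fun x => G.locCe (t : ℝ) c (x - c)) hA hB rfl hlA rfl hlB rfl hltQ
    (fun x h1 h2 => by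
      push_cast [cast_eQ] at h1 h2
      rw [hloc, if_pos (by linarith only [h2])]) (fun x h1 h2 => by
      push_cast [cast_eQ] at h1 h2
      rw [hloc, if_neg (by linarith only [h1])])
  have hm := mem_join hA hB rfl hlA rfl hlB rfl
  rw [← hc1] at C hm
  push_cast [cast_eQ] at C hm
  have dn : ∀ e, 0 ≤ dent t e ∧ dent t e ≤ 2 * (t : ℝ) ^ 3 := by
    intro e
    rw [dent_eq t0.le]
    have h3 := tri_nonneg (1 / 64) e
    have h4 := tri_le (w := 1 / 64) (by norm_num) e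
    constructor
    · positivity
    · nlinarith only [t0, p4, h4]
  have low : ∀ z : ℂ, (c : ℝ) ≤ z.re → z.re ≤ c + eL σ - t / 4 →
      z.im = G.N + (t : ℝ) ^ 4 * ramp t (z.re - c) + dent t (z.re - c - 1 / 4) →
      (G.N : ℝ) ≤ z.im ∧ z.im ≤ G.N + t / 64 := by
    intro z h1 h2 h3
    have r0 := ramp_nonneg t0 (show 0 ≤ z.re - c by linarith only [h1]) (by linarith only [p3, p31, h2, heR.2])
    have r1 := ramp_le t (z.re - c)
    have d := dn (z.re - c - 1 / 4)
    rw [h3]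
    constructor
    · nlinarith only [d, p4, r0]
    · nlinarith only [p31, d, ht1, p4, r1]
  refine ⟨C.weak, ?_, ?_, fun z hz => ⟨C.le z hz, ?_⟩, C.cmp, C.mem, fun z hz hcase => ?_⟩
  · rw [hc1]
    simp
  · rw [hc1, hJ']
    simp [List.getLast?_cons]
  · rw [hh0]
    push_cast
    rcases (hm z).1 hz with ⟨h1, h2, h3⟩ | ⟨h1, h2, h3⟩ | ⟨h1, h2, h3⟩
    · obtain ⟨a, b⟩ := low z h1 h2 h3
      constructor <;> linarith only [a, ht1, b]
    · rw [min_eq_left (by linarith only [p3, p43, p31])] at h2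
      rw [max_eq_right (by linarith only [p3, p43, p31])] at h3
      constructor <;> linarith only [p4, h2, ht1, h3]
    · have a1 : z.im ≤ G.N + 1 + t / 4 := by rw [h3]; exact min_le_left _ _
      have a2 : (G.N : ℝ) ≤ z.im := by
        rw [h3]
        refine le_min (by linarith only [p3, p31]) ?_
        have : 0 ≤ (1 - (z.re - c)) / (t : ℝ) ^ 7 := div_nonneg (by linarith only [h2]) p7.le
        have h5 : 0 ≤ (1 + (t : ℝ) / 4 - tipH t σ) * ((1 - (z.re - c)) / (t : ℝ) ^ 7) :=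
          mul_nonneg (by linarith only [p31, htip, htip.2]) this
        linarith only [h5, htip.1]
      constructor <;> linarith only [a2, ht1, a1]
  · rw [hh0]
    push_cast
    rcases hcase with ⟨h5, -⟩ | ⟨-, h5⟩
    swap
    · rw [hiL] at h5
      exact absurd h5 (by decide)
    rcases (hm z).1 hz with ⟨h1, h2, h3⟩ | ⟨h1, h2, h3⟩ | ⟨h1, h2, h3⟩
    · obtain ⟨a, b⟩ := low z h1 h2 h3
      rw [abs_le]
      constructor <;> linarith only [p3, p31, a, b]
    · exfalso
      linarith only [ht1, h5, h1, heR.1]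
    · exfalso
      linarith only [ht1, h5, h1, heR.1]

/-- right ports -/
theorem concl_pR {t : ℚ} {G : Lay} {c : ℕ} {σ : Bool} (ht : 0 < t) (ht1 : (t : ℝ) ≤ 1 / 2 ^ 60)
    (hc : c < G.M) (hk : G.kd c = .pR σ) : Concl t G c := by
  have t0 : (0 : ℝ) < t := by exact_mod_cast ht
  obtain ⟨p4, p3, p43, p31, p7, p71, q1⟩ := tiny t0 ht1
  have tq : t ≤ 1 / 1024 := by
    have h : (t : ℝ) ≤ ((1 / 1024 : ℚ) : ℝ) := by push_cast; exact q1
    exact_mod_cast h
  have hh0 : (G.kd c).h = 0 := by rw [hk]; rfl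
  have hiL : (G.kd c).isL = false := by rw [hk]; rfl
  have hiR : (G.kd c).isR = true := by rw [hk]; rfl
  have hsig : (G.kd c).sig = σ := by rw [hk]; rfl
  have htop : G.top c = G.N := by
    unfold Lay.top
    rw [hh0]
    rfl
  have hJ : G.J t c = G.N + tipQ t σ := by
    unfold Lay.J Lay.topR
    simp [hc, hiR, hsig]
  have hJ' : G.J' t c = G.N := by
    unfold Lay.J'
    simp [hiL, htop]
  have he : (14 / 32 : ℚ) ≤ eQ σ ∧ eQ σ ≤ 18 / 32 := by
    unfold eQ
    split <;> norm_num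
  have heR : (14 / 32 : ℝ) ≤ eL σ ∧ eL σ ≤ 18 / 32 := by
    unfold eL
    split <;> norm_num
  have htip : (0 : ℝ) < tipH t σ ∧ tipH t σ ≤ 2 * (t : ℝ) ^ 3 := by
    unfold tipH
    split <;> constructor <;> linarith only [p3]
  -- the two parts
  have hc1 : G.ceilP t c = [((c : ℚ), G.N + tipQ t σ), (c + t ^ 7, G.N + 1 + t / 4),
      (c + eQ σ + t / 4, G.N + 1 + t / 4)] ++
      ((c + eQ σ + t / 4, G.N + t ^ 4) :: (tentPts (c + 3 / 4) (G.N + t ^ 4) (1 / 64) (2 * t ^ 3) ++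
      [(c + 1 - t / 4, G.N + t ^ 4), (c + 1, (G.N : ℚ))])) := by
    unfold Lay.ceilP Lay.cePts
    rw [hJ, hk]
    simp [tentPts]
  have hB := fit_portR (f := fun x => G.N + (t : ℝ) ^ 4 * ramp t (x - c) + dent t (x - c - 3 / 4))
    (c := (c : ℚ)) (T := (G.N : ℚ)) (D := 2 * t ^ 3) ht tq he.1 he.2 (fun x h1 h2 => by
      push_cast
      rw [dent_eq t0.le])
  have hA := fit_spikeR (f := fun x => min ((G.N : ℝ) + 1 + t / 4) (G.N + tipH t σ +
      (1 + t / 4 - tipH t σ) * ((x - c) / t ^ 7))) (c := (c : ℚ))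
      (x₀ := c + eQ σ + t / 4) (P := G.N + tipQ t σ) (H := G.N + 1 + t / 4) (w := t ^ 7)
      (by positivity) (by
        have h : ((c + t ^ 7 : ℚ) : ℝ) < ((c + eQ σ + t / 4 : ℚ) : ℝ) := by
          push_cast [cast_eQ]
          linarith only [p3, p31, p71, heR.1]
        exact_mod_cast h) (by
        have h : ((G.N + tipQ t σ : ℚ) : ℝ) ≤ ((G.N + 1 + t / 4 : ℚ) : ℝ) := by
          push_cast [cast_tipQ]
          linarith only [p31, htip, htip.2]
        exact_mod_cast h) (fun x h1 h2 => by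
      push_cast [cast_tipQ]
      congr 1
      ring)
  have hloc : ∀ x, G.locCe (t : ℝ) c x = if x ≤ eL σ + t / 4 then min ((G.N : ℝ) + 1 + t / 4)
        (G.N + tipH t σ + (1 + t / 4 - tipH t σ) * (x / t ^ 7)) else
      G.N + (t : ℝ) ^ 4 * ramp t x + dent t (x - 3 / 4) := by
    intro x
    unfold Lay.locCe
    rw [if_neg (by rw [hiL]; decide), if_pos hiR, hsig]
  have hltQ : (G.N + t ^ 4 : ℚ) < G.N + 1 + t / 4 := by
    have h : ((G.N + t ^ 4 : ℚ) : ℝ) < ((G.N + 1 + t / 4 : ℚ) : ℝ) := by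
      push_cast
      linarith only [p3, p43, p31]
    exact_mod_cast h
  have hlB : ((c + eQ σ + t / 4, G.N + t ^ 4) :: (tentPts (c + 3 / 4) (G.N + t ^ 4) (1 / 64)
      (2 * t ^ 3) ++ [(c + 1 - t / 4, G.N + t ^ 4), (c + 1, (G.N : ℚ))])).getLast? =
      some ((c + 1 : ℚ), (G.N : ℚ)) := by
    simp [List.getLast?_cons, tentPts]
  have hlA : [((c : ℚ), G.N + tipQ t σ), (c + t ^ 7, G.N + 1 + t / 4),
      (c + eQ σ + t / 4, G.N + 1 + t / 4)].getLast? =
      some ((c + eQ σ + t / 4 : ℚ), (G.N + 1 + t / 4 : ℚ)) := rfl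
  have C := ceil_down (F := fun x => G.locCe (t : ℝ) c (x - c)) hA hB rfl hlA rfl hlB rfl hltQ
    (fun x h1 h2 => by
      push_cast [cast_eQ] at h1 h2
      rw [hloc, if_pos (by linarith only [h2])]) (fun x h1 h2 => by
      push_cast [cast_eQ] at h1 h2
      rw [hloc, if_neg (by linarith only [h1])])
  have hm := mem_join hA hB rfl hlA rfl hlB rfl
  rw [← hc1] at C hm
  push_cast [cast_eQ] at C hm
  have dn : ∀ e, 0 ≤ dent t e ∧ dent t e ≤ 2 * (t : ℝ) ^ 3 := by
    intro e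
    rw [dent_eq t0.le]
    have h3 := tri_nonneg (1 / 64) e
    have h4 := tri_le (w := 1 / 64) (by norm_num) e
    constructor
    · positivity
    · nlinarith only [t0, p4, h4]
  have low : ∀ z : ℂ, (c : ℝ) + eL σ + t / 4 ≤ z.re → z.re ≤ c + 1 →
      z.im = G.N + (t : ℝ) ^ 4 * ramp t (z.re - c) + dent t (z.re - c - 3 / 4) →
      (G.N : ℝ) ≤ z.im ∧ z.im ≤ G.N + t / 64 := by
    intro z h1 h2 h3
    have r0 := ramp_nonneg t0 (show 0 ≤ z.re - c by linarith only [p3, p31, h1, heR.1]) (by linarith only [h2])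
    have r1 := ramp_le t (z.re - c)
    have d := dn (z.re - c - 3 / 4)
    rw [h3]
    constructor
    · nlinarith only [d, p4, r0]
    · nlinarith only [p31, d, ht1, p4, r1]
  refine ⟨C.weak, ?_, ?_, fun z hz => ⟨C.le z hz, ?_⟩, C.cmp, C.mem, fun z hz hcase => ?_⟩
  · rw [hc1]
    simp
  · rw [hc1, hJ']
    simp [List.getLast?_cons, tentPts]
  · rw [hh0]
    push_cast
    rcases (hm z).1 hz with ⟨h1, h2, h3⟩ | ⟨h1, h2, h3⟩ | ⟨h1, h2, h3⟩
    · have a1 : z.im ≤ G.N + 1 + t / 4 := by rw [h3]; exact min_le_left _ _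
      have a2 : (G.N : ℝ) ≤ z.im := by
        rw [h3]
        refine le_min (by linarith only [p3, p31]) ?_
        have : 0 ≤ (z.re - c) / (t : ℝ) ^ 7 := div_nonneg (by linarith only [h1]) p7.le
        have h5 : 0 ≤ (1 + (t : ℝ) / 4 - tipH t σ) * ((z.re - c) / (t : ℝ) ^ 7) :=
          mul_nonneg (by linarith only [p31, htip, htip.2]) this
        linarith only [h5, htip.1]
      constructor <;> linarith only [a2, ht1, a1]
    · rw [min_eq_right (by linarith only [p3, p43, p31])] at h2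
      rw [max_eq_left (by linarith only [p3, p43, p31])] at h3
      constructor <;> linarith only [p4, h2, ht1, h3]
    · obtain ⟨a, b⟩ := low z h1 h2 h3
      constructor <;> linarith only [a, ht1, b]
  · rw [hh0]
    push_cast
    rcases hcase with ⟨-, h5⟩ | ⟨h5, -⟩
    · rw [hiR] at h5
      exact absurd h5 (by decide)
    rcases (hm z).1 hz with ⟨h1, h2, h3⟩ | ⟨h1, h2, h3⟩ | ⟨h1, h2, h3⟩
    · exfalso
      linarith only [ht1, h5, h2, heR.2]
    · exfalso
      linarith only [ht1, h5, h1, heR.2]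
    · obtain ⟨a, b⟩ := low z h1 h2 h3
      rw [abs_le]
      constructor <;> linarith only [p3, p31, a, b]

/-- PB2 -/
theorem pb2 (hG1 : G1Stmt) : PB2Stmt := by
  intro m G c hG hs hc
  have hs' : Small (((1 / 2 : ℚ) ^ m : ℚ) : ℝ) G := by rw [cast_half]; exact hs
  obtain ⟨g1, -, -, -, g5, -⟩ := hG1 _ G hG hs'
  have ht : (0 : ℚ) < (1 / 2) ^ m := by positivity
  have key : Concl ((1 / 2) ^ m) G c := by
    have ht1 : (((1 / 2 : ℚ) ^ m : ℚ) : ℝ) ≤ 1 / 2 ^ 60 := g1.trans (by norm_num)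
    rcases hL : (G.kd c).isL with _ | _
    · rcases hR : (G.kd c).isR with _ | _
      · exact concl_other ht ht1 hc (g5 c hc).2 hL hR
      · cases hk : G.kd c with
        | pR σ => exact concl_pR ht ht1 hc hk
        | _ => rw [hk] at hR; simp [Kind.isR] at hR
    · cases hk : G.kd c with
      | pL σ => exact concl_pL ht ht1 hc hk
      | _ => rw [hk] at hL; simp [Kind.isL] at hL
  unfold Concl at key
  rw [cast_half] at key
  exact key

end Pool.Agent.Helper2_Pak.H26
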