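import Pool.Agent.Helper2_Pak.StmtsT
import Pool.Agent.Helper91_Pack.T7

/-!
# Generators for the layout of the system of a word
-/

namespace Pool.Agent.Helper2_Pak.H26

open Pool.Agent.Helper2_Pack Pool.Agent.Helper53_CookLevin Pool.Agent.Helper53_Chan
open Pool.Agent.Helper91_Pack

variable {k : ℕ}

/-! ### Case distinctions -/

theorem fg_bind {α β : Type} {g : (Fin k → List CL) → α} {F : α → (Fin k → List CL) → β}
    (hg : FG k g) (hF : ∀ a, FG k (F a)) : FG k (fun ρ => F (g ρ) ρ) := fun G hG =>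
  hg (fun a ρ => G (F a ρ) ρ) (fun a => hF a G hG)

theorem ng_bind {α : Type} {g : (Fin k → List CL) → α} {F : α → (Fin k → List CL) → ℕ}
    (hg : FG k g) (hF : ∀ a, NG k (F a)) : NG k (fun ρ => F (g ρ) ρ) :=
  hg (fun a ρ => List.replicate (F a ρ) uu) hF

/-! ### Blocks -/

/-- the constructor of a block -/
def tagB : Blk → Blk
  | .blank => .blank
  | .sum right _ _ _ o => .sum right 0 0 0 o
  | .inv _ _ => .inv 0 0

/-- the first number -/
def paB : Blk → ℕ
  | .blank => 0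
  | .sum _ a _ _ _ => a
  | .inv i _ => i

/-- the second number -/
def pbB : Blk → ℕ
  | .blank => 0
  | .sum _ _ b _ _ => b
  | .inv _ j => j

/-- the third number -/
def pcB : Blk → ℕ
  | .blank => 0
  | .sum _ _ _ c _ => c
  | .inv _ _ => 0

/-- generators for blocks -/
def BG (k : ℕ) (f : (Fin k → List CL) → Blk) : Prop :=
  FG k (fun ρ => tagB (f ρ)) ∧ NG k (fun ρ => paB (f ρ)) ∧ NG k (fun ρ => pbB (f ρ)) ∧
  NG k (fun ρ => pcB (f ρ))

theorem BG.congr {f g : (Fin k → List CL) → Blk} (hf : BG k f) (h : ∀ ρ, f ρ = g ρ) : BG k g := by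
  have : f = g := funext h
  rwa [← this]

theorem BG.blank : BG k (fun _ => .blank) :=
  ⟨FG.const _, NG.const _, NG.const _, NG.const _⟩

theorem BG.sum (right : Bool) {a b c : (Fin k → List CL) → ℕ} (o : ℤ) (ha : NG k a)
    (hb : NG k b) (hc : NG k c) : BG k (fun ρ => .sum right (a ρ) (b ρ) (c ρ) o) :=
  ⟨FG.const (Blk.sum right 0 0 0 o), ha, hb, hc⟩

theorem BG.inv {i j : (Fin k → List CL) → ℕ} (hi : NG k i) (hj : NG k j) :
    BG k (fun ρ => .inv (i ρ) (j ρ)) :=
  ⟨FG.const (Blk.inv 0 0), hi, hj, NG.const 0⟩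

theorem BG.ite {P : (Fin k → List CL) → Prop} [∀ ρ, Decidable (P ρ)]
    {f g : (Fin k → List CL) → Blk} (hP : Test k P) (hf : BG k f) (hg : BG k g) :
    BG k (fun ρ => if P ρ then f ρ else g ρ) := by
  obtain ⟨f1, f2, f3, f4⟩ := hf
  obtain ⟨g1, g2, g3, g4⟩ := hg
  refine ⟨FG.congr (FG.ite hP f1 g1) fun ρ => ?_, NG.congr (NG.ite hP f2 g2) fun ρ => ?_,
    NG.congr (NG.ite hP f3 g3) fun ρ => ?_, NG.congr (NG.ite hP f4 g4) fun ρ => ?_⟩ <;>
  by_cases h : P ρ <;> simp [h]

theorem BG.bind {α : Type} {g : (Fin k → List CL) → α} {F : α → (Fin k → List CL) → Blk}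
    (hg : FG k g) (hF : ∀ a, BG k (F a)) : BG k (fun ρ => F (g ρ) ρ) :=
  ⟨fg_bind (F := fun a ρ => tagB (F a ρ)) hg fun a => (hF a).1,
    ng_bind (F := fun a ρ => paB (F a ρ)) hg fun a => (hF a).2.1,
    ng_bind (F := fun a ρ => pbB (F a ρ)) hg fun a => (hF a).2.2.1,
    ng_bind (F := fun a ρ => pcB (F a ρ)) hg fun a => (hF a).2.2.2⟩

/-! ### Columns of blocks -/

theorem col_kind (n : ℕ) (B : Blk) (o : ℕ) : (B.col n o).1 = ((tagB B).col 0 (min o 6)).1 := by
  have h : ∀ o, 6 < o → min o 6 = 6 := fun o h => by omega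
  rcases B with _ | ⟨right, a, b, c, o'⟩ | ⟨i, j⟩
  · rfl
  · rcases right with _ | _
    · rcases Nat.lt_or_ge 6 o with ho | ho
      · rw [h o ho]
        obtain ⟨p, rfl⟩ : ∃ p, o = p + 7 := ⟨o - 7, by omega⟩
        rfl
      · interval_cases o <;> rfl
    · rcases Nat.lt_or_ge 6 o with ho | ho
      · rw [h o ho]
        obtain ⟨p, rfl⟩ : ∃ p, o = p + 7 := ⟨o - 7, by omega⟩
        rfl
      · interval_cases o <;> rfl
  · rcases Nat.lt_or_ge 6 o with ho | ho
    · rw [h o ho]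
      obtain ⟨p, rfl⟩ : ∃ p, o = p + 7 := ⟨o - 7, by omega⟩
      rfl
    · interval_cases o <;> rfl

/-- the number of special tiles of a column, as a function of the data of the block -/
def lOf (T : Blk) (o n a b c : ℕ) : ℕ :=
  match T with
  | .blank => 0
  | .sum true _ _ _ _ => if o = 0 then n else if o = 1 ∨ o = 2 then 0 else if o = 3 then a else
      if o = 4 then b else if o = 5 then c else n
  | .sum false _ _ _ _ => if o = 0 then n else if o = 1 then c else if o = 2 then b else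
      if o = 3 then a else if o = 4 ∨ o = 5 then 0 else n
  | .inv _ _ => if o = 0 then 2 * a + 1 else if o = 1 then 2 * b + 1 else if o = 3 then 2 * a + 2
      else if o = 4 then 2 * b + 2 else 0

theorem col_l (n : ℕ) (B : Blk) (o : ℕ) :
    (B.col n o).2 = lOf (tagB B) o n (paB B) (pbB B) (pcB B) := by
  rcases B with _ | ⟨right, a, b, c, o'⟩ | ⟨i, j⟩
  · rfl
  · rcases right with _ | _
    · rcases Nat.lt_or_ge 6 o with ho | ho
      · obtain ⟨p, rfl⟩ : ∃ p, o = p + 7 := ⟨o - 7, by omega⟩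
        simp [Blk.col, lOf, tagB]
      · interval_cases o <;> simp [Blk.col, lOf, tagB, paB, pbB, pcB]
    · rcases Nat.lt_or_ge 6 o with ho | ho
      · obtain ⟨p, rfl⟩ : ∃ p, o = p + 7 := ⟨o - 7, by omega⟩
        simp [Blk.col, lOf, tagB]
      · interval_cases o <;> simp [Blk.col, lOf, tagB, paB, pbB, pcB]
  · rcases Nat.lt_or_ge 6 o with ho | ho
    · obtain ⟨p, rfl⟩ : ∃ p, o = p + 7 := ⟨o - 7, by omega⟩
      simp [Blk.col, lOf, tagB]
    · interval_cases o <;> simp [Blk.col, lOf, tagB, paB, pbB]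

/-- numbers up to `6` can be used for a case distinction -/
theorem fg_min : ∀ (m : ℕ) {o : (Fin k → List CL) → ℕ}, NG k o → FG k (fun ρ => min (o ρ) m)
  | 0, o, _ => FG.congr (FG.const 0) fun ρ => by simp
  | m + 1, o, ho => by
    refine FG.congr (FG.ite (tle (NG.const (m + 1)) ho) (FG.const (m + 1)) (fg_min m ho)) fun ρ => ?_
    split_ifs with h <;> omega

theorem fg_kind {n o : (Fin k → List CL) → ℕ} {B : (Fin k → List CL) → Blk} (ho : NG k o)
    (hB : BG k B) : FG k (fun ρ => ((B ρ).col (n ρ) (o ρ)).1) :=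
  FG.congr (FG.map₂ (fun (T : Blk) (o : ℕ) => (T.col 0 o).1) hB.1 (fg_min 6 ho)) fun ρ =>
    (col_kind _ _ _).symm

theorem ng_l {n o : (Fin k → List CL) → ℕ} {B : (Fin k → List CL) → Blk} (hn : NG k n)
    (ho : NG k o) (hB : BG k B) : NG k (fun ρ => ((B ρ).col (n ρ) (o ρ)).2) := by
  classical
  obtain ⟨h1, ha, hb, hc⟩ := hB
  refine NG.congr (ng_bind (F := fun T ρ => lOf T (o ρ) (n ρ) (paB (B ρ)) (pbB (B ρ)) (pcB (B ρ)))
    h1 fun T => ?_) fun ρ => (col_l _ _ _).symm
  have e : ∀ j, Test k (fun ρ => o ρ = j) := fun j => teq ho (NG.const j)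
  rcases T with _ | ⟨right, a, b, c, o'⟩ | ⟨i, j⟩
  · exact NG.const 0
  · rcases right with _ | _
    · exact NG.ite (e 0) hn (NG.ite (e 1) hc (NG.ite (e 2) hb (NG.ite (e 3) ha
        (NG.ite (tor (e 4) (e 5)) (NG.const 0) hn))))
    · exact NG.ite (e 0) hn (NG.ite (tor (e 1) (e 2)) (NG.const 0) (NG.ite (e 3) ha
        (NG.ite (e 4) hb (NG.ite (e 5) hc hn))))
  · have t2 : ∀ {f : (Fin k → List CL) → ℕ} (j : ℕ), NG k f → NG k (fun ρ => 2 * f ρ + j) :=
      fun j hf => NG.add (NG.mul (NG.const 2) hf) (NG.const j)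
    exact NG.ite (e 0) (t2 1 ha) (NG.ite (e 1) (t2 1 hb) (NG.ite (e 3) (t2 2 ha)
      (NG.ite (e 4) (t2 2 hb) (NG.const 0))))

/-! ### The blocks of a system -/

theorem ng_srt3 {x y z : (Fin k → List CL) → ℕ} (hx : NG k x) (hy : NG k y) (hz : NG k z) :
    NG k (fun ρ => (srt3 (x ρ) (y ρ) (z ρ)).1) ∧ NG k (fun ρ => (srt3 (x ρ) (y ρ) (z ρ)).2.1) ∧
    NG k (fun ρ => (srt3 (x ρ) (y ρ) (z ρ)).2.2) := by
  classical
  have h1 : Test k (fun ρ => x ρ ≤ y ρ) := tle hx hy
  have h2 : Test k (fun ρ => y ρ ≤ z ρ) := tle hy hz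
  have h3 : Test k (fun ρ => x ρ ≤ z ρ) := tle hx hz
  refine ⟨?_, ?_, ?_⟩
  · refine NG.congr (NG.ite h1 (NG.ite h2 hx (NG.ite h3 hx hz))
      (NG.ite h3 hy (NG.ite h2 hy hz))) fun ρ => ?_
    unfold srt3
    split_ifs <;> rfl
  · refine NG.congr (NG.ite h1 (NG.ite h2 hy (NG.ite h3 hz hx))
      (NG.ite h3 hx (NG.ite h2 hz hy))) fun ρ => ?_
    unfold srt3
    split_ifs <;> rfl
  · refine NG.congr (NG.ite h1 (NG.ite h2 hz (NG.ite h3 hy hy))
      (NG.ite h3 hz (NG.ite h2 hx hx))) fun ρ => ?_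
    unfold srt3
    split_ifs <;> rfl

theorem ng_idx {n : (Fin k → List CL) → ℕ} {u : (Fin k → List CL) → List SLetter} (hn : NG k n)
    (hu : SG k u) (j : ℕ) : NG k (fun ρ => idx (n ρ) (runsAux 0 (u ρ)) j) := by
  classical
  exact NG.ite (tlt (NG.const j) (SG.runsLen hu))
    (NG.add (NG.mul (NG.const 2) (SG.run hu (NG.const j))) (NG.const 1)) hn

theorem bg_sumBlk (right : Bool) (o : ℤ) {n : (Fin k → List CL) → ℕ}
    {u : (Fin k → List CL) → List SLetter} (hn : NG k n) (hu : SG k u) :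
    BG k (fun ρ => sumBlk right (n ρ) (runsAux 0 (u ρ)) o) := by
  obtain ⟨h1, h2, h3⟩ := ng_srt3 (ng_idx hn hu 0) (ng_idx hn hu 1) (ng_idx hn hu 2)
  exact BG.sum right o h1 h2 h3

/-- the block of a constraint word, as a function of the last letter -/
def cbOf (right : Bool) (n : ℕ) (u : List SLetter) : Option SLetter → Blk
  | some .inv => if right then .inv ((runsAux 0 u).getD 0 0) ((runsAux 0 u).getD 1 0) else .blank
  | some .neg => sumBlk right n (runsAux 0 u) (if right then -1 else 1)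
  | some .zer => sumBlk right n (runsAux 0 u) 0
  | _ => sumBlk right n (runsAux 0 u) (if right then 1 else -1)

theorem conBlk_conOf (right : Bool) (n : ℕ) (u : List SLetter) :
    conBlk right n (conOf u) = cbOf right n u u.getLast? := by
  unfold conOf
  rcases u.getLast? with _ | a
  · rfl
  · cases a <;> cases right <;> rfl

theorem bg_conBlk (right : Bool) {n : (Fin k → List CL) → ℕ}
    {u : (Fin k → List CL) → List SLetter} (hn : NG k n) (hu : SG k u) :
    BG k (fun ρ => conBlk right (n ρ) (conOf (u ρ))) := by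
  refine BG.congr (BG.bind (F := fun l ρ => cbOf right (n ρ) (u ρ) l) (SG.last hu) fun l => ?_)
    fun ρ => (conBlk_conOf _ _ _).symm
  rcases l with _ | a
  · exact bg_sumBlk right _ hn hu
  · cases a
    case inv =>
      cases right
      · exact BG.blank
      · exact BG.inv (SG.run hu (NG.const 0)) (SG.run hu (NG.const 1))
    case neg => exact bg_sumBlk right _ hn hu
    case zer => exact bg_sumBlk right _ hn hu
    all_goals exact bg_sumBlk right _ hn hu

theorem ng_n {v : (Fin k → List CL) → List SLetter} (hv : SG k v) :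
    NG k (fun ρ => (sysOfWord (v ρ)).n) := SG.nOf hv

theorem ng_cons {v : (Fin k → List CL) → List SLetter} (hv : SG k v) :
    NG k (fun ρ => (sysOfWord (v ρ)).cons.length) := by
  refine NG.congr (SG.ct (SG.body hv) isEnd) fun ρ => ?_
  rw [← segs_length (bodyOf (v ρ)) []]
  unfold sysOfWord
  rw [List.length_map]

theorem ng_nR {v : (Fin k → List CL) → List SLetter} (hv : SG k v) :
    NG k (fun ρ => nR (sysOfWord (v ρ))) :=
  NG.add (NG.mul (NG.const 2) (ng_n hv)) (NG.const 1)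

theorem ng_nT {v : (Fin k → List CL) → List SLetter} (hv : SG k v) :
    NG k (fun ρ => nT (sysOfWord (v ρ))) :=
  NG.add (NG.mul (NG.const 2) (ng_n hv)) (ng_cons hv)

theorem bg_con (right : Bool) {v : (Fin k → List CL) → List SLetter}
    {n e : (Fin k → List CL) → ℕ} (hv : SG k v) (hn : NG k n) (he : NG k e) :
    BG k (fun ρ => conBlk right (n ρ) ((sysOfWord (v ρ)).cons.getD (e ρ) (.inv 0 1))) := by
  classical
  have h1 : BG k (fun ρ => conBlk right (n ρ) (.inv 0 1)) := by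
    cases right
    · exact BG.blank
    · exact BG.inv (NG.const 0) (NG.const 1)
  refine BG.congr (BG.ite (tlt he (ng_cons hv))
    (bg_conBlk right hn (SG.seg (SG.body hv) he)) h1) fun ρ => ?_
  split_ifs with h
  · congr 1
    unfold sysOfWord at h ⊢
    simp only at h ⊢
    rw [List.length_map] at h
    rw [List.getD_eq_getElem _ _ h, List.getD_eq_getElem _ _ (by rw [List.length_map]; exact h),
      List.getElem_map]
  · rw [List.getD_eq_default _ _ (by omega)]

theorem bg_half (right : Bool) {v : (Fin k → List CL) → List SLetter}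
    {e : (Fin k → List CL) → ℕ} (hv : SG k v) (he : NG k e) :
    BG k (fun ρ => halfBlk (sysOfWord (v ρ)) right (e ρ)) := by
  classical
  have hn := ng_n hv
  have hR := ng_nR hv
  exact BG.ite (tlt he hn)
    (BG.sum right 1 (NG.add (NG.mul (NG.const 2) he) (NG.const 1)) hR hR)
    (BG.ite (tlt he (NG.mul (NG.const 2) hn))
      (BG.sum right 0 (NG.add (NG.mul (NG.const 2) (NG.sub he hn)) (NG.const 1))
        (NG.add (NG.mul (NG.const 2) (NG.sub he hn)) (NG.const 2)) hR)
      (bg_con right hv hR (NG.sub he (NG.mul (NG.const 2) hn))))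

theorem bg_blk {v : (Fin k → List CL) → List SLetter} {b : (Fin k → List CL) → ℕ} (hv : SG k v)
    (hb : NG k b) : BG k (fun ρ => blk (sysOfWord (v ρ)) (b ρ)) := by
  classical
  have hT := ng_nT hv
  exact BG.ite (tor (teq hb (NG.const 0)) (tor (teq hb (NG.add hT (NG.const 1)))
      (tle (NG.add (NG.mul (NG.const 2) hT) (NG.const 2)) hb))) BG.blank
    (BG.ite (tle hb hT) (bg_half false hv (NG.sub hb (NG.const 1)))
      (bg_half true hv (NG.sub (NG.sub hb hT) (NG.const 2))))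

/-- T4 -/
theorem t4 : T4Stmt := by
  intro k v c hv hc
  have h7 : NG k (fun ρ => c ρ / 7) := NG.div hc (NG.const 7)
  have hm : NG k (fun ρ => c ρ % 7) := NG.mod hc (NG.const 7)
  have hB := bg_blk hv h7
  refine ⟨ng_nR hv, ?_, fg_kind hm hB, ng_l (ng_nR hv) hm hB⟩
  exact NG.mul (NG.const 7) (NG.add (NG.mul (NG.const 2) (ng_nT hv)) (NG.const 3))

end Pool.Agent.Helper2_Pak.H26
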